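import Mathlib
import Pool.Agent.K9h41.DC.Em
import Pool.Agent.K4H74.ST.Fld

/-!
# A Galois number field in which the centralizer of a complex conjugation is small
-/

set_option autoImplicit false
set_option linter.unusedSectionVars false

namespace Pool.Agent.K9h40.DT

open NumberField NumberField.InfinitePlace IntermediateField Pool.Agent.K4H74.ST Pool.Agent.K9h41.DC

lemma isolate (T : Finset ℝ) (r : ℝ) :
    ∃ a b : ℚ, (a : ℝ) < r ∧ r < b ∧ ∀ t ∈ T, t ≠ r → t < a ∨ (b : ℝ) < t := by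
  classical
  induction T using Finset.induction_on with
  | empty =>
    obtain ⟨a, ha⟩ := exists_rat_lt r
    obtain ⟨b, hb⟩ := exists_rat_gt r
    exact ⟨a, b, ha, hb, by simp⟩
  | insert t T _ ih =>
    obtain ⟨a, b, ha, hb, h⟩ := ih
    rcases lt_trichotomy t r with h1 | h1 | h1
    · obtain ⟨a', h2, h3⟩ := exists_rat_btwn (max_lt ha h1)
      refine ⟨a', b, h3, hb, fun x hx hxr => ?_⟩
      rcases Finset.mem_insert.mp hx with rfl | hx
      · exact Or.inl ((le_max_right _ _).trans_lt h2)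
      · rcases h x hx hxr with h4 | h4
        · exact Or.inl (h4.trans ((le_max_left _ _).trans_lt h2))
        · exact Or.inr h4
    · refine ⟨a, b, ha, hb, fun x hx hxr => ?_⟩
      rcases Finset.mem_insert.mp hx with rfl | hx
      · exact absurd h1 hxr
      · exact h x hx hxr
    · obtain ⟨b', h2, h3⟩ := exists_rat_btwn (lt_min hb h1)
      refine ⟨a, b', ha, h2, fun x hx hxr => ?_⟩
      rcases Finset.mem_insert.mp hx with rfl | hx
      · exact Or.inr (h3.trans_le (min_le_right _ _))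
      · rcases h x hx hxr with h4 | h4
        · exact Or.inl h4
        · exact Or.inr ((h3.trans_le (min_le_left _ _)).trans h4)

/-- a Galois number field which contains two given number fields and a square root of `-1` -/
lemma exists_gal (F₀ F₁ : Type) [Field F₀] [NumberField F₀] [Field F₁] [NumberField F₁] :
    ∃ (L : Type) (_ : Field L) (_ : NumberField L) (_ : IsGalois ℚ L) (w : L),
      Nonempty (F₀ →+* L) ∧ Nonempty (F₁ →+* L) ∧ w * w = -1 := by
  classical
  let Ω := AlgebraicClosure ℚ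
  let j₀ : F₀ →ₐ[ℚ] Ω := IsAlgClosed.lift
  let j₁ : F₁ →ₐ[ℚ] Ω := IsAlgClosed.lift
  let S : IntermediateField ℚ Ω := j₀.fieldRange ⊔ j₁.fieldRange
  have h0 : FiniteDimensional ℚ j₀.fieldRange :=
    LinearMap.finiteDimensional_range j₀.toLinearMap
  have h1 : FiniteDimensional ℚ j₁.fieldRange :=
    LinearMap.finiteDimensional_range j₁.toLinearMap
  have hS : FiniteDimensional ℚ S := IntermediateField.finiteDimensional_sup _ _
  have halg : Algebra.IsAlgebraic ℚ Ω := by
    have h : (DivisionRing.toRatAlgebra : Algebra ℚ (AlgebraicClosure ℚ))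
        = AlgebraicClosure.instAlgebra ℚ := Subsingleton.elim _ _
    have h' := AlgebraicClosure.isAlgebraic ℚ
    rw [← h] at h'
    exact h'
  have hcl : IsAlgClosure ℚ Ω := ⟨inferInstance, halg⟩
  have hΩ : Normal ℚ Ω := IsAlgClosure.normal ℚ Ω
  let L₁ := IntermediateField.normalClosure ℚ S Ω
  have hN1 : Normal ℚ L₁ := normalClosure.normal ℚ S Ω
  have hN2 : FiniteDimensional ℚ L₁ := normalClosure.is_finiteDimensional ℚ S Ω
  have hNF : NumberField L₁ := { to_charZero := inferInstance, to_finiteDimensional := hN2 }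
  have hG : IsGalois ℚ L₁ := ⟨⟩
  have hle : S ≤ L₁ := S.le_normalClosure
  obtain ⟨L, i1, i2, i3, i4, i5, i6, hw⟩ := exists_ext ℚ L₁ {-1}
  have hi : i3 = DivisionRing.toRatAlgebra := Subsingleton.elim _ _
  subst hi
  obtain ⟨w, hw⟩ := hw (-1) (by simp)
  rw [map_neg, map_one] at hw
  refine ⟨L, i1, i2, i6, w, ⟨?_⟩, ⟨?_⟩, hw⟩
  · exact (algebraMap L₁ L).comp ((IntermediateField.inclusion
      ((le_sup_left : j₀.fieldRange ≤ S).trans hle) : j₀.fieldRange →ₐ[ℚ] L₁).toRingHom.comp
      j₀.rangeRestrict.toRingHom)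
  · exact (algebraMap L₁ L).comp ((IntermediateField.inclusion
      ((le_sup_right : j₁.fieldRange ≤ S).trans hle) : j₁.fieldRange →ₐ[ℚ] L₁).toRingHom.comp
      j₁.rangeRestrict.toRingHom)

/-- **the field** -/
theorem exists_field (F₀ F₁ : Type) [Field F₀] [NumberField F₀] [Field F₁] [NumberField F₁] :
    ∃ (K : Type) (_ : Field K) (_ : NumberField K) (_ : IsGalois ℚ K) (i₀ : F₀ →+* K)
      (i₁ : F₁ →+* K) (φ : K →ₐ[ℚ] ℂ) (c : K ≃ₐ[ℚ] K) (N Gp : Subgroup (K ≃ₐ[ℚ] K)),
      N.Normal ∧ (∀ x, φ (c x) = star (φ x)) ∧ c * c = 1 ∧ c ∉ N ∧ Gp.index = 2 ∧ c ∉ Gp ∧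
      (∀ g, g * c = c * g → g ∈ N ∨ c * g ∈ N) ∧
      (∀ n ∈ N, ∀ x, n (i₀ x) = i₀ x) ∧ (∀ n ∈ N, ∀ x, n (i₁ x) = i₁ x) := by
  classical
  obtain ⟨L, _, _, _, w, ⟨k₀⟩, ⟨k₁⟩, hw⟩ := exists_gal F₀ F₁
  let φL : L →ₐ[ℚ] ℂ := IsAlgClosed.lift
  obtain ⟨cL, hcL⟩ := exists_cc φL
  let R : IntermediateField ℚ L := fixedField (Subgroup.zpowers cL)
  let pb := Field.powerBasisOfFiniteOfSeparable ℚ R
  let θ : L := (pb.gen : L)
  have hθ : cL θ = θ := by
    exact (mem_fixedField_iff (Subgroup.zpowers cL) θ).mp pb.gen.2 cL (Subgroup.mem_zpowers cL)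
  have hreal : ∀ x : L, cL x = x → (φL x).im = 0 := by
    intro x hx
    have h1 := hcL x
    rw [hx] at h1
    exact Complex.conj_eq_iff_im.mp h1.symm
  have : Fintype (L ≃ₐ[ℚ] L) := Fintype.ofFinite _
  obtain ⟨a, b, ha, hb, hab⟩ := isolate
    (Finset.univ.image fun g : L ≃ₐ[ℚ] L => (φL (g θ)).re) (φL θ).re
  let β : L := (θ - algebraMap ℚ L a) * (algebraMap ℚ L b - θ)
  obtain ⟨K, i1, i2, i3, i4, i5, i6, hv⟩ := exists_ext ℚ L {β}
  have hi : i3 = DivisionRing.toRatAlgebra := Subsingleton.elim _ _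
  subst hi
  obtain ⟨v, hv⟩ := hv β (by simp)
  let φ' : K →+* ℂ := ComplexEmbedding.lift K (φL : L →+* ℂ)
  have hφ' : φ'.comp (algebraMap L K) = (φL : L →+* ℂ) := ComplexEmbedding.lift_comp_algebraMap K _
  let φ : K →ₐ[ℚ] ℂ := RingHom.toRatAlgHom φ'
  have hφ : ∀ x : L, φ (algebraMap L K x) = φL x := fun x => RingHom.congr_fun hφ' x
  obtain ⟨c, hc⟩ := exists_cc φ
  let ρ : (K ≃ₐ[ℚ] K) →* (L ≃ₐ[ℚ] L) := AlgEquiv.restrictNormalHom L
  have hρ : ∀ (g : K ≃ₐ[ℚ] K) (x : L), algebraMap L K (ρ g x) = g (algebraMap L K x) :=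
    fun g x => res_apply g x
  have hcc : c * c = 1 := by
    ext x
    apply φ.injective
    change φ (c (c x)) = φ x
    rw [hc, hc, star_star]
  have hρc : ρ c = cL := by
    ext x
    apply φL.injective
    change φL (ρ c x) = φL (cL x)
    rw [← hφ, hρ, hc, hφ, hcL]
  let w' : K := algebraMap L K w
  have hw' : w' * w' = -1 := by rw [← map_mul, hw, map_neg, map_one]
  have hw0 : w' ≠ 0 := by
    intro h
    rw [h, mul_zero] at hw'
    exact one_ne_zero (neg_eq_zero.mp hw'.symm)
  have hpm : ∀ g : K ≃ₐ[ℚ] K, g w' = w' ∨ g w' = -w' := by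
    intro g
    have h1 : g w' * g w' = w' * w' := by
      rw [← map_mul, hw', map_neg, map_one]
    exact mul_self_eq_mul_self_iff.mp h1
  have hcw : c w' ≠ w' := by
    intro h
    have h1 := hc w'
    rw [h] at h1
    have h2 : (φ w').im = 0 := Complex.conj_eq_iff_im.mp h1.symm
    have h3 : φ w' * φ w' = -1 := by rw [← map_mul, hw', map_neg, map_one]
    have h4 := congrArg Complex.re h3
    rw [Complex.mul_re, h2] at h4
    simp at h4
    nlinarith [mul_self_nonneg (φ w').re]
  have hneg : -w' ≠ w' := fun h => hw0 (self_eq_neg.mp h.symm)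
  refine ⟨K, i1, i2, i6, (algebraMap L K).comp k₀, (algebraMap L K).comp k₁, φ, c, ρ.ker,
    MulAction.stabilizer (K ≃ₐ[ℚ] K) w', inferInstance, hc, hcc, ?_, ?_, hcw, ?_, ?_, ?_⟩
  rotate_left
  · rw [Subgroup.index_eq_two_iff]
    refine ⟨c, fun b => ?_⟩
    have h1 : c w' = -w' := (hpm c).resolve_left hcw
    have h2 : (b * c) w' = -(b w') := by
      change b (c w') = _
      rw [h1, map_neg]
    have h3 : b * c ∈ MulAction.stabilizer (K ≃ₐ[ℚ] K) w' ↔ (b * c) w' = w' := Iff.rfl
    have h4 : b ∈ MulAction.stabilizer (K ≃ₐ[ℚ] K) w' ↔ b w' = w' := Iff.rfl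
    rw [h3, h4, h2]
    rcases hpm b with h5 | h5
    · rw [h5]
      exact Or.inr ⟨rfl, hneg⟩
    · rw [h5]
      exact Or.inl ⟨neg_neg _, hneg⟩
  rotate_left 3
  · intro h
    rw [MonoidHom.mem_ker, hρc] at h
    have h1 := hcL w
    rw [h] at h1
    change φL w = star (φL w) at h1
    have h2 : (φL w).im = 0 := Complex.conj_eq_iff_im.mp h1.symm
    have h3 : φL w * φL w = -1 := by rw [← map_mul, hw, map_neg, map_one]
    have h4 := congrArg Complex.re h3
    rw [Complex.mul_re, h2] at h4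
    simp at h4
    nlinarith [mul_self_nonneg (φL w).re]
  · intro g hg
    -- the square root of `β` is real
    have hβ : ∀ x : L, (φL x).im = 0 →
        (φL ((x - algebraMap ℚ L a) * (algebraMap ℚ L b - x))).im = 0 ∧
        (φL ((x - algebraMap ℚ L a) * (algebraMap ℚ L b - x))).re
          = ((φL x).re - a) * (b - (φL x).re) := by
      intro x hx
      rw [map_mul, map_sub, map_sub, AlgHom.commutes, AlgHom.commutes]
      simp [Complex.mul_re, Complex.mul_im, hx]
    have h1 := hβ θ (hreal θ hθ)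
    have hφv : φ v * φ v = φL β := by rw [← map_mul, hv, hφ]
    have hvim : (φ v).im = 0 := by
      have h2 : (φ v * φ v).im = 0 := by rw [hφv]; exact h1.1
      have h3 : 0 < (φ v * φ v).re := by
        rw [hφv, h1.2]
        exact mul_pos (by linarith) (by linarith)
      rw [Complex.mul_im] at h2
      rw [Complex.mul_re] at h3
      by_contra h4
      have h5 : (φ v).re * (φ v).im = 0 := by linarith
      rcases mul_eq_zero.mp h5 with h6 | h6
      · rw [h6] at h3
        nlinarith [mul_self_nonneg (φ v).im]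
      · exact h4 h6
    have hcv : c v = v := by
      apply φ.injective
      change φ (c v) = φ v
      rw [hc]
      exact Complex.conj_eq_iff_im.mpr hvim
    have hcgv : c (g v) = g v := by
      have h2 := congrArg (fun f : K ≃ₐ[ℚ] K => f v) hg
      change g (c v) = c (g v) at h2
      rw [← h2, hcv]
    have hgv : (φ (g v)).im = 0 := by
      have h2 := hc (g v)
      rw [hcgv] at h2
      exact Complex.conj_eq_iff_im.mp h2.symm
    have hcomm : ρ g * cL = cL * ρ g := by
      rw [← hρc, ← map_mul, hg, map_mul]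
    have hgθ : cL (ρ g θ) = ρ g θ := by
      have h2 := congrArg (fun f : L ≃ₐ[ℚ] L => f θ) hcomm
      change ρ g (cL θ) = cL (ρ g θ) at h2
      rw [← h2, hθ]
    have h2 := hβ (ρ g θ) (hreal _ hgθ)
    have h3 : φ (g v) * φ (g v)
        = φL ((ρ g θ - algebraMap ℚ L a) * (algebraMap ℚ L b - ρ g θ)) := by
      rw [← map_mul, ← map_mul, hv, ← hρ, hφ]
      congr 1
      change ρ g ((θ - algebraMap ℚ L a) * (algebraMap ℚ L b - θ)) = _
      rw [map_mul, map_sub, map_sub, AlgEquiv.commutes, AlgEquiv.commutes]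
    have h4 : 0 ≤ ((φL (ρ g θ)).re - a) * (b - (φL (ρ g θ)).re) := by
      rw [← h2.2, ← h3, Complex.mul_re, hgv]
      simp only [mul_zero, sub_zero]
      exact mul_self_nonneg _
    have h5 : (φL (ρ g θ)).re = (φL θ).re := by
      by_contra h6
      rcases hab _ (Finset.mem_image_of_mem _ (Finset.mem_univ (ρ g))) h6 with h7 | h7
      · have : ((φL (ρ g θ)).re - a) * (b - (φL (ρ g θ)).re) < 0 :=
          mul_neg_of_neg_of_pos (by linarith) (by linarith)
        linarith
      · have : ((φL (ρ g θ)).re - a) * (b - (φL (ρ g θ)).re) < 0 :=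
          mul_neg_of_pos_of_neg (by linarith) (by linarith)
        linarith
    have h6 : ρ g θ = θ := by
      apply φL.injective
      change φL (ρ g θ) = φL θ
      apply Complex.ext h5
      rw [hreal _ hgθ, hreal _ hθ]
    have h7 : ((ρ g : L →ₐ[ℚ] L).comp R.val) = R.val := pb.algHom_ext h6
    have h8 : ρ g ∈ fixingSubgroup R := by
      rw [IntermediateField.mem_fixingSubgroup_iff]
      intro x hx
      exact congrArg (fun f => f ⟨x, hx⟩) h7
    rw [fixingSubgroup_fixedField] at h8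
    obtain ⟨k, hk⟩ := h8
    simp only at hk
    have hcL2 : cL * cL = 1 := by rw [← hρc, ← map_mul, hcc, map_one]
    rcases Int.even_or_odd' k with ⟨s, hs | hs⟩
    · left
      rw [MonoidHom.mem_ker, ← hk, hs, zpow_mul, zpow_ofNat, pow_two, hcL2, one_zpow]
    · right
      rw [MonoidHom.mem_ker, map_mul, hρc, ← hk, hs, zpow_add, zpow_mul, zpow_ofNat, pow_two,
        hcL2, one_zpow, one_mul, zpow_one, hcL2]
  · intro n hn x
    rw [MonoidHom.mem_ker] at hn
    change n (algebraMap L K (k₀ x)) = algebraMap L K (k₀ x)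
    rw [← hρ, hn]
    rfl
  · intro n hn x
    rw [MonoidHom.mem_ker] at hn
    change n (algebraMap L K (k₁ x)) = algebraMap L K (k₁ x)
    rw [← hρ, hn]
    rfl

end Pool.Agent.K9h40.DT
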