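import Mathlib
import Pool.Agent.K9h41.DC.Gp

/-!
# Permutation characters of subgroups without complex conjugations
-/

set_option autoImplicit false
set_option linter.unusedSectionVars false

namespace Pool.Agent.K9h40.DT

open Pool.Agent.R389 Pool.Agent.H302R3 MulAction Pool.Agent.K9h41.DC

variable {G : Type} [Group G] [Finite G]

/-- the group generated by the permutation characters of the subgroups with the property `P` -/
def PG (P : Subgroup G → Prop) : AddSubgroup (G → ℂ) :=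
  AddSubgroup.closure {f | ∃ U : Subgroup G, P U ∧ f = ind U (fun _ => 1)}

lemma card_ne' {H : Subgroup G} : (Nat.card H : ℂ) ≠ 0 := by exact_mod_cast Nat.card_pos.ne'

/-- the number of the fixed points on a finite set -/
lemma count_mem' (P : Subgroup G → Prop) {X : Type} [MulAction G X] [Finite X]
    (hX : ∀ x : X, P (stabilizer G x)) :
    (fun g : G => (Nat.card {x : X // g • x = x} : ℂ)) ∈ PG P := by
  classical
  have : Fintype G := Fintype.ofFinite _
  have : Fintype X := Fintype.ofFinite _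
  let mk : X → Quotient (orbitRel G X) := Quotient.mk _
  have h1 : (fun g : G => (Nat.card {x : X // g • x = x} : ℂ))
      = ∑ ω : Quotient (orbitRel G X), ind (stabilizer G ω.out) (fun _ => (1 : ℂ)) := by
    funext g
    rw [Finset.sum_apply]
    have h2 : (Nat.card {x : X // g • x = x} : ℂ) = ∑ x : X, if g • x = x then (1 : ℂ) else 0 := by
      rw [← Finset.sum_filter, Finset.sum_const, nsmul_eq_mul, mul_one,
        Nat.card_eq_fintype_card, Fintype.card_subtype]
    rw [h2, ← Finset.sum_fiberwise_of_maps_to (s := Finset.univ) (t := Finset.univ)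
      (g := mk) (fun _ _ => Finset.mem_univ _)]
    refine Finset.sum_congr rfl fun ω _ => ?_
    rw [ind_eq]
    have h3 : ∀ y : G, ext (stabilizer G ω.out) (fun _ => (1 : ℂ)) (y⁻¹ * g * y)
        = (fun x : X => if g • x = x then (1 : ℂ) else 0) (y • ω.out) := by
      intro y
      have h4 : y⁻¹ * g * y ∈ stabilizer G ω.out ↔ g • y • ω.out = y • ω.out := by
        rw [mem_stabilizer_iff, mul_smul, mul_smul, inv_smul_eq_iff]
      simp only
      by_cases h : y⁻¹ * g * y ∈ stabilizer G ω.out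
      · rw [ext_mem _ _ h, if_pos (h4.mp h)]
      · rw [ext_not _ _ h, if_neg (fun h' => h (h4.mpr h'))]
    rw [Finset.sum_congr rfl (fun y _ => h3 y)]
    have hmk : ∀ y : G, mk (y • ω.out) = ω := by
      intro y
      have h5 : mk (y • ω.out) = mk ω.out := Quotient.sound (orbitRel_apply.mpr ⟨y, rfl⟩)
      rw [h5]; exact Quotient.out_eq ω
    rw [← Finset.sum_fiberwise_of_maps_to (s := (Finset.univ : Finset G))
      (t := Finset.univ.filter (fun x => mk x = ω)) (g := fun y => y • ω.out)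
      (fun y _ => Finset.mem_filter.mpr ⟨Finset.mem_univ _, hmk y⟩), Finset.mul_sum]
    refine Finset.sum_congr rfl fun x hx => ?_
    have hx1 : mk x = mk ω.out := by
      rw [(Finset.mem_filter.mp hx).2]; exact (Quotient.out_eq ω).symm
    obtain ⟨z, hz⟩ := orbitRel_apply.mp (Quotient.exact hx1)
    simp only at hz
    rw [Finset.sum_congr rfl (g := fun _ => if g • x = x then (1 : ℂ) else 0)
      (fun y hy => by rw [(Finset.mem_filter.mp hy).2]), Finset.sum_const, nsmul_eq_mul]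
    have hcard : (Finset.univ.filter (fun y : G => y • ω.out = x)).card
        = Nat.card (stabilizer G ω.out) := by
      rw [← Fintype.card_subtype, ← Nat.card_eq_fintype_card]
      refine Nat.card_congr ⟨fun y => ⟨z⁻¹ * y, ?_⟩, fun s => ⟨z * s, ?_⟩, ?_, ?_⟩
      · rw [mem_stabilizer_iff, mul_smul, y.2, ← hz, inv_smul_smul]
      · rw [mul_smul, mem_stabilizer_iff.mp s.2, hz]
      · intro y; apply Subtype.ext; simp
      · intro s; apply Subtype.ext; simp
    rw [hcard, ← mul_assoc, inv_mul_cancel₀ card_ne', one_mul]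
  rw [h1]
  exact sum_mem fun ω _ => AddSubgroup.subset_closure ⟨_, hX ω.out, rfl⟩

/-- integral multiples of the trivial character, from `p`-hyperelementary subgroups -/
lemma exists_const' {p : ℕ} (hp : p.Prime) :
    ∃ N : ℤ, ¬ (p : ℤ) ∣ N ∧ N • (fun _ => 1 : G → ℂ) ∈ PG (G := G) (fun U => HypP p U) := by
  classical
  have : Fintype G := Fintype.ofFinite _
  obtain ⟨F, hF, hF'⟩ := exists_all_prime_to (G := G) hp
  let Q : Polynomial ℤ := ∏ g : G, (Polynomial.X - Polynomial.C (F g : ℤ))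
  refine ⟨Q.coeff 0, ?_, ?_⟩
  · rw [Polynomial.coeff_zero_eq_eval_zero, Polynomial.eval_prod]
    intro h
    obtain ⟨g, -, hg⟩ := (Prime.dvd_finsetProd_iff (Nat.prime_iff_prime_int.mp hp) _).mp h
    simp only [Polynomial.eval_sub, Polynomial.eval_X, Polynomial.eval_C, zero_sub,
      dvd_neg] at hg
    exact hF' g (by exact_mod_cast hg)
  · have h1 : Q.coeff 0 • (fun _ => 1 : G → ℂ)
        = - ∑ i ∈ Finset.range Q.natDegree, Q.coeff (i + 1) • (fun g => ((F g ^ (i + 1) : ℕ) : ℂ)) := by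
      funext x
      have h2 : Q.eval (F x : ℤ) = 0 := by
        rw [Polynomial.eval_prod]
        exact Finset.prod_eq_zero (Finset.mem_univ x) (by simp)
      rw [Polynomial.eval_eq_sum_range, Finset.sum_range_succ'] at h2
      have h3 : Q.coeff 0 = - ∑ i ∈ Finset.range Q.natDegree, Q.coeff (i + 1) * (F x : ℤ) ^ (i + 1) := by
        rw [pow_zero, mul_one] at h2
        linarith
      simp only [Pi.smul_apply, Pi.neg_apply, Finset.sum_apply, zsmul_eq_mul, mul_one]
      rw [h3]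
      push_cast
      rfl
    rw [h1]
    refine neg_mem (sum_mem fun i _ => zsmul_mem ?_ _)
    obtain ⟨X, _, _, hX, hfX⟩ := hF.pow i
    have h4 := count_mem' (fun U : Subgroup G => HypP p U) hX
    convert h4 using 2 with g
    have h5 := hfX g
    simp only at h5
    rw [h5]

section fxl

lemma fx_conj (H : Subgroup G) (x g : G) : fx H (x * g * x⁻¹) = fx H g := by
  have h1 := ind_class (k := ℂ) H (fun _ => 1) g x
  rw [ind_one, ind_one] at h1
  exact_mod_cast h1

lemma fx_mul_normal {N H : Subgroup G} [N.Normal] (h : N ≤ H) (g : G) {n : G} (hn : n ∈ N) :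
    fx H (g * n) = fx H g := by
  rw [fx, fx]
  refine Nat.card_congr (Equiv.subtypeEquivRight fun q => ?_)
  obtain ⟨x, rfl⟩ := QuotientGroup.mk_surjective q
  rw [smul_coset_iff, smul_coset_iff]
  have h1 : x⁻¹ * n * x ∈ H := h (by
    have := ‹N.Normal›.conj_mem n hn x⁻¹
    rwa [inv_inv] at this)
  have h2 : x⁻¹ * (g * n) * x = (x⁻¹ * g * x) * (x⁻¹ * n * x) := by group
  rw [h2]
  exact H.mul_mem_cancel_right h1

lemma fx_normal {N H : Subgroup G} [N.Normal] (h : N ≤ H) {n : G} (hn : n ∈ N) :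
    fx H n = fx H 1 := by
  have := fx_mul_normal h 1 hn
  rwa [one_mul] at this

end fxl

/-- involutions of hyperelementary groups at odd primes are central -/
lemma hyp_central {p : ℕ} (hp2 : Odd p) {U : Type} [Group U] (hU : HypP p U) {t : U}
    (ht : t * t = 1) (u : U) : u * t = t * u := by
  obtain ⟨z, -, hn, hpw⟩ := hU
  obtain ⟨k, hk⟩ := hpw t
  have h1 : t ^ (p ^ k) = t := by
    obtain ⟨r, hr⟩ := hp2.pow (n := k)
    rw [hr, pow_succ, pow_mul, pow_two, ht, one_pow, one_mul]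
  rw [h1] at hk
  obtain ⟨i, hi⟩ := hk
  obtain ⟨r, hr⟩ := hn u
  simp only at hi hr
  have h2 : u * t * u⁻¹ = t ^ r := by
    rw [← hi, ← conj_zpow, ← hr, ← zpow_mul, ← zpow_mul, mul_comm]
  rcases Int.even_or_odd' r with ⟨s, hs | hs⟩
  · have h3 : t ^ r = 1 := by
      rw [hs, zpow_mul, zpow_ofNat, pow_two, ht, one_zpow]
    rw [h3] at h2
    have h4 : t = 1 := by
      have h5 : u * t = u := by
        have := mul_inv_eq_one.mp h2
        exact this
      exact mul_eq_left.mp h5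
    rw [h4, mul_one, one_mul]
  · have h3 : t ^ r = t := by
      rw [hs, zpow_add, zpow_mul, zpow_ofNat, pow_two, ht, one_zpow, one_mul, zpow_one]
    rw [h3] at h2
    exact mul_inv_eq_iff_eq_mul.mp h2

section main

variable {N H₀ H₁ : Subgroup G} {c : G} {a₀ a₁ : ℕ}

/-- the subgroups without conjugates of `c` -/
def Free (c : G) (V : Subgroup G) : Prop := ∀ x : G, x⁻¹ * c * x ∉ V

/-- the difference of multiples of two permutation characters -/
noncomputable def psi (H₀ H₁ : Subgroup G) (a₀ a₁ : ℕ) (g : G) : ℂ :=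
  (a₀ : ℂ) * fx H₀ g - (a₁ : ℂ) * fx H₁ g

lemma psi_class (g x : G) : psi H₀ H₁ a₀ a₁ (x * g * x⁻¹) = psi H₀ H₁ a₀ a₁ g := by
  rw [psi, psi, fx_conj, fx_conj]

lemma mem_A {p : ℕ} {U : Subgroup G} (hU : HypP p U) (hc : Free c U) (H : Subgroup G) :
    (fun g => (fx U g : ℂ) * fx H g) ∈ PG (G := G) (fun V => HypP p V ∧ Free c V) := by
  have h := count_mem' (G := G) (fun V => HypP p V ∧ Free c V) (X := (G ⧸ U) × (G ⧸ H)) ?_
  · convert h using 2 with g
    rw [fx, fx, ← Nat.cast_mul, ← Nat.card_prod]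
    congr 1
    refine Nat.card_congr (Equiv.trans (Equiv.subtypeProdEquivProd).symm
      (Equiv.subtypeEquivRight fun x => ?_))
    rw [Prod.ext_iff]
    rfl
  · rintro ⟨x, y⟩
    obtain ⟨x, rfl⟩ := QuotientGroup.mk_surjective x
    have hle : ∀ g ∈ stabilizer G (((x : G ⧸ U), y) : (G ⧸ U) × (G ⧸ H)), x⁻¹ * g * x ∈ U := by
      intro g hg
      rw [mem_stabilizer_iff] at hg
      exact (smul_coset_iff U g x).mp (congrArg Prod.fst hg)
    constructor
    · let f : stabilizer G (((x : G ⧸ U), y) : (G ⧸ U) × (G ⧸ H)) →* U :=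
        { toFun := fun g => ⟨x⁻¹ * g * x, hle g g.2⟩
          map_one' := by
            apply Subtype.ext
            simp
          map_mul' := fun a b => by
            apply Subtype.ext
            simp only [Subgroup.coe_mul]
            group }
      refine HypP.of_injective f ?_ hU
      intro a b hab
      have h1 := congrArg Subtype.val hab
      apply Subtype.ext
      change x⁻¹ * a * x = x⁻¹ * b * x at h1
      exact mul_left_cancel (mul_right_cancel h1)
    · intro y' hy'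
      have h1 := hle _ hy'
      apply hc (y' * x)
      have h2 : (y' * x)⁻¹ * c * (y' * x) = x⁻¹ * (y'⁻¹ * c * y') * x := by group
      rw [h2]
      exact h1

/-- hyperelementary subgroups at odd primes which contain a conjugate of `c` -/
lemma mem_B [N.Normal] (h0 : N ≤ H₀) (h1 : N ≤ H₁) (hfix : a₀ * fx H₀ c = a₁ * fx H₁ c)
    (hc : c * c = 1) (hcN : c ∉ N)
    (hcent : ∀ g : G, g * c = c * g → g ∈ N ∨ c * g ∈ N) {p : ℕ} (hp2 : Odd p) {U : Subgroup G}
    (hU : HypP p U) (hcU : ¬ Free c U) :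
    (fun g => 2 * ((fx U g : ℂ) * psi H₀ H₁ a₀ a₁ g))
      ∈ PG (G := G) (fun V => HypP p V ∧ Free c V) := by
  classical
  have : Fintype G := Fintype.ofFinite _
  rw [Free] at hcU
  push Not at hcU
  obtain ⟨x, hx⟩ := hcU
  let t : G := x⁻¹ * c * x
  have htt : t * t = 1 := by
    have : t * t = x⁻¹ * (c * c) * x := by simp only [t]; group
    rw [this, hc]
    group
  have htN : t ∉ N := by
    intro h
    apply hcN
    have := ‹N.Normal›.conj_mem t h x
    have h2 : x * t * x⁻¹ = c := by simp only [t]; group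
    rwa [h2] at this
  have hcm : ∀ u ∈ U, u ∈ N ∨ t * u ∈ N := by
    intro u hu
    have h2 := hyp_central hp2 hU (t := (⟨t, hx⟩ : U)) (Subtype.ext htt) ⟨u, hu⟩
    have h3 : u * t = t * u := congrArg Subtype.val h2
    have h4 : (x * u * x⁻¹) * c = c * (x * u * x⁻¹) := by
      have h5 : c = x * t * x⁻¹ := by simp only [t]; group
      rw [h5]
      have h6 : x * u * x⁻¹ * (x * t * x⁻¹) = x * (u * t) * x⁻¹ := by group
      have h7 : x * t * x⁻¹ * (x * u * x⁻¹) = x * (t * u) * x⁻¹ := by group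
      rw [h6, h7, h3]
    rcases hcent _ h4 with h5 | h5
    · left
      have := ‹N.Normal›.conj_mem _ h5 x⁻¹
      have h6 : x⁻¹ * (x * u * x⁻¹) * x⁻¹⁻¹ = u := by group
      rwa [h6] at this
    · right
      have := ‹N.Normal›.conj_mem _ h5 x⁻¹
      have h6 : x⁻¹ * (c * (x * u * x⁻¹)) * x⁻¹⁻¹ = t * u := by simp only [t]; group
      rwa [h6] at this
  have hpsiN : ∀ u ∈ N, psi H₀ H₁ a₀ a₁ u = psi H₀ H₁ a₀ a₁ 1 := by
    intro u hu
    rw [psi, psi, fx_normal h0 hu, fx_normal h1 hu]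
  have hfc : ∀ (H : Subgroup G), N ≤ H → ∀ u : G, t * u ∈ N → fx H u = fx H c := by
    intro H hH u hu
    have h2 : u = t * (t * u) := by rw [← mul_assoc, htt, one_mul]
    rw [h2, fx_mul_normal hH _ hu]
    have h3 := fx_conj H x⁻¹ c
    rwa [inv_inv] at h3
  have hpsi0 : ∀ u : G, t * u ∈ N → psi H₀ H₁ a₀ a₁ u = 0 := by
    intro u hu
    rw [psi, hfc H₀ h0 u hu, hfc H₁ h1 u hu, sub_eq_zero]
    exact_mod_cast hfix
  -- the index
  have hidx : (N.subgroupOf U).index = 2 := by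
    rw [Subgroup.index_eq_two_iff]
    refine ⟨⟨t, hx⟩, fun b => ?_⟩
    simp only [Subgroup.mem_subgroupOf, Subgroup.coe_mul]
    by_cases hb : (b : G) ∈ N
    · right
      refine ⟨hb, fun h2 => htN ?_⟩
      exact (N.mul_mem_cancel_left hb).mp h2
    · left
      refine ⟨?_, hb⟩
      have h2 := (hcm b b.2).resolve_left hb
      have h3 := hyp_central hp2 hU (t := (⟨t, hx⟩ : U)) (Subtype.ext htt) b
      have h4 : (b : G) * t = t * b := congrArg Subtype.val h3
      rwa [h4]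
  have hcard : Nat.card U = 2 * Nat.card (N ⊓ U : Subgroup G) := by
    have h2 := (N.subgroupOf U).card_mul_index
    rw [hidx] at h2
    have h3 : Nat.card (N.subgroupOf U) = Nat.card (N ⊓ U : Subgroup G) := by
      rw [← Subgroup.inf_subgroupOf_right]
      exact Nat.card_congr (Subgroup.subgroupOfEquivOfLe inf_le_right).toEquiv
    rw [← h2, h3, mul_comm]
  have hcls : ∀ g x : G, psi H₀ H₁ a₀ a₁ (x * g * x⁻¹) = psi H₀ H₁ a₀ a₁ g := psi_class
  -- the values
  obtain ⟨a, ha⟩ : ∃ a : ℤ, psi H₀ H₁ a₀ a₁ 1 = a := by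
    refine ⟨(a₀ : ℤ) * fx H₀ 1 - (a₁ : ℤ) * fx H₁ 1, ?_⟩
    rw [psi]
    push_cast
    rfl
  have hmain : (fun g => 2 * ((fx U g : ℂ) * psi H₀ H₁ a₀ a₁ g))
      = a • ind (N ⊓ U : Subgroup G) (fun _ => (1 : ℂ)) := by
    funext g
    rw [← ind_one U g, ← ind_mul U (fun _ => (1 : ℂ)) hcls g]
    simp only [one_mul]
    rw [Pi.smul_apply, zsmul_eq_mul, ind_eq, ind_eq, hcard, ← mul_assoc]
    have h2 : ∀ y : G, ext U (fun h : U => psi H₀ H₁ a₀ a₁ (h : G)) y
        = a * ext (N ⊓ U : Subgroup G) (fun _ => (1 : ℂ)) y := by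
      intro y
      by_cases hy : y ∈ U
      · rw [ext_mem _ _ hy]
        by_cases hyN : y ∈ N
        · rw [ext_mem _ _ (Subgroup.mem_inf.mpr ⟨hyN, hy⟩), mul_one, ← ha]
          exact hpsiN y hyN
        · rw [ext_not _ _ (fun h => hyN (Subgroup.mem_inf.mp h).1), mul_zero]
          exact hpsi0 y ((hcm y hy).resolve_left hyN)
      · rw [ext_not _ _ hy, ext_not _ _ (fun h => hy (Subgroup.mem_inf.mp h).2), mul_zero]
    rw [Finset.sum_congr rfl (fun y _ => h2 _), ← Finset.mul_sum]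
    have h3 : (Nat.card (N ⊓ U : Subgroup G) : ℂ) ≠ 0 := card_ne'
    push_cast
    field_simp
  rw [hmain]
  suffices hV : HypP p (N ⊓ U : Subgroup G) ∧ Free c (N ⊓ U) by
    have h9 : ind (N ⊓ U : Subgroup G) (fun _ => (1 : ℂ))
        ∈ PG (G := G) (fun V => HypP p V ∧ Free c V) :=
      AddSubgroup.subset_closure ⟨N ⊓ U, hV, rfl⟩
    exact zsmul_mem h9 a
  constructor
  · exact HypP.of_injective (Subgroup.inclusion inf_le_right)
      (Subgroup.inclusion_injective inf_le_right) hU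
  · intro y hy
    apply hcN
    have h2 := ‹N.Normal›.conj_mem _ (Subgroup.mem_inf.mp hy).1 y
    have h3 : y * (y⁻¹ * c * y) * y⁻¹ = c := by group
    rwa [h3] at h2

/-- multiples of `psi` at an odd prime -/
lemma odd_mult [N.Normal] (h0 : N ≤ H₀) (h1 : N ≤ H₁) (hfix : a₀ * fx H₀ c = a₁ * fx H₁ c)
    (hc : c * c = 1) (hcN : c ∉ N)
    (hcent : ∀ g : G, g * c = c * g → g ∈ N ∨ c * g ∈ N) {p : ℕ} (hp : p.Prime) (hp2 : Odd p) :
    ∃ n : ℤ, ¬ (p : ℤ) ∣ n ∧
      n • psi H₀ H₁ a₀ a₁ ∈ PG (G := G) (fun V => Hyper V ∧ Free c V) := by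
  obtain ⟨n, hn, hn'⟩ := exists_const' (G := G) hp
  let m : (G → ℂ) →+ (G → ℂ) := AddMonoidHom.mk' (fun u g => 2 * (u g * psi H₀ H₁ a₀ a₁ g))
    (fun a b => by
      funext g
      change 2 * ((a g + b g) * psi H₀ H₁ a₀ a₁ g) = 2 * (a g * psi H₀ H₁ a₀ a₁ g)
        + 2 * (b g * psi H₀ H₁ a₀ a₁ g)
      ring)
  have h2 : PG (G := G) (fun U => HypP p U)
      ≤ (PG (G := G) (fun V => HypP p V ∧ Free c V)).comap m := by
    rw [PG, AddSubgroup.closure_le]
    rintro f ⟨U, hU, rfl⟩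
    rw [SetLike.mem_coe, AddSubgroup.mem_comap]
    have h3 : m (ind U (fun _ => 1)) = fun g => 2 * ((fx U g : ℂ) * psi H₀ H₁ a₀ a₁ g) := by
      funext g
      change 2 * (ind U (fun _ => 1) g * psi H₀ H₁ a₀ a₁ g) = _
      rw [ind_one]
    rw [h3]
    by_cases hcU : Free c U
    · have h4 := mem_A hU hcU H₀
      have h5 := mem_A hU hcU H₁
      have h6 : (fun g => 2 * ((fx U g : ℂ) * psi H₀ H₁ a₀ a₁ g))
          = (2 * (a₀ : ℤ)) • (fun g => (fx U g : ℂ) * fx H₀ g)
            - (2 * (a₁ : ℤ)) • (fun g => (fx U g : ℂ) * fx H₁ g) := by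
        funext g
        change 2 * ((fx U g : ℂ) * psi H₀ H₁ a₀ a₁ g)
          = (2 * (a₀ : ℤ)) • ((fx U g : ℂ) * fx H₀ g) - (2 * (a₁ : ℤ)) • ((fx U g : ℂ) * fx H₁ g)
        rw [zsmul_eq_mul, zsmul_eq_mul, psi]
        push_cast
        ring
      rw [h6]
      exact sub_mem (zsmul_mem h4 _) (zsmul_mem h5 _)
    · exact mem_B h0 h1 hfix hc hcN hcent hp2 hU hcU
  have h3 := h2 hn'
  rw [AddSubgroup.mem_comap] at h3
  have h4 : m (n • (fun _ => 1 : G → ℂ)) = (2 * n) • psi H₀ H₁ a₀ a₁ := by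
    funext g
    change 2 * ((n • (fun _ => 1 : G → ℂ)) g * psi H₀ H₁ a₀ a₁ g) = _
    simp only [Pi.smul_apply, zsmul_eq_mul]
    push_cast
    ring
  rw [h4] at h3
  refine ⟨2 * n, ?_, ?_⟩
  · intro h5
    rcases (Nat.prime_iff_prime_int.mp hp).dvd_or_dvd h5 with h6 | h6
    · have h7 : p ∣ 2 := by exact_mod_cast h6
      have h8 := (Nat.prime_dvd_prime_iff_eq hp Nat.prime_two).mp h7
      rw [h8] at hp2
      exact absurd hp2 (by decide)
    · exact hn h6
  · have h5 : PG (G := G) (fun V => HypP p V ∧ Free c V)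
        ≤ PG (G := G) (fun V => Hyper V ∧ Free c V) := by
      rw [PG, AddSubgroup.closure_le]
      rintro f ⟨U, ⟨hU, hU'⟩, rfl⟩
      exact AddSubgroup.subset_closure ⟨U, ⟨⟨p, hp, hU⟩, hU'⟩, rfl⟩
    exact h5 h3

/-- **a power of two times `psi`** -/
theorem two_mult [N.Normal] (h0 : N ≤ H₀) (h1 : N ≤ H₁) (hfix : a₀ * fx H₀ c = a₁ * fx H₁ c)
    (hc : c * c = 1) (hcN : c ∉ N)
    (hcent : ∀ g : G, g * c = c * g → g ∈ N ∨ c * g ∈ N) :
    ∃ j : ℕ, ((2 ^ j : ℕ) : ℤ) • psi H₀ H₁ a₀ a₁ ∈ PG (G := G) (fun V => Hyper V ∧ Free c V) := by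
  let φ : ℤ →+ (G → ℂ) := zmultiplesHom _ (psi H₀ H₁ a₀ a₁)
  have hφ : ∀ n : ℤ, φ n = n • psi H₀ H₁ a₀ a₁ := fun n => rfl
  obtain ⟨a, ha⟩ := Int.subgroup_cyclic
    ((PG (G := G) (fun V => Hyper V ∧ Free c V)).comap φ)
  have ha' : ∀ n : ℤ, n • psi H₀ H₁ a₀ a₁ ∈ PG (G := G) (fun V => Hyper V ∧ Free c V) ↔ a ∣ n := by
    intro n
    rw [← hφ, ← AddSubgroup.mem_comap, ha, ← AddSubgroup.zmultiples_eq_closure,
      Int.mem_zmultiples_iff]
  have h2 : ∀ {d : ℕ}, d.Prime → d ∣ a.natAbs → d = 2 := by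
    intro d hd hda
    by_contra hcon
    obtain ⟨n, hn, hn'⟩ := odd_mult h0 h1 hfix hc hcN hcent hd (hd.odd_of_ne_two hcon)
    exact hn ((Int.natCast_dvd.mpr hda).trans ((ha' n).mp hn'))
  have h3 : a.natAbs ≠ 0 := by
    intro h
    have := h2 Nat.prime_three (by rw [h]; exact dvd_zero 3)
    omega
  have h4 := Nat.eq_prime_pow_of_unique_prime_dvd h3 h2
  refine ⟨a.natAbs.primeFactorsList.length, ?_⟩
  rw [ha', ← h4]
  exact Int.dvd_natAbs_self

/-- the coefficients -/
lemma PG_coeff {P : Subgroup G → Prop} {f : G → ℂ} (hf : f ∈ PG P) :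
    ∃ a : Subgroup G → ℤ, (∀ V, a V ≠ 0 → P V) ∧
      ∀ g : G, ∑ᶠ V, (a V : ℂ) * ind V (fun _ => (1 : ℂ)) g = f g := by
  classical
  let S : AddSubgroup (G → ℂ) :=
    { carrier := {f | ∃ c : Subgroup G → ℤ, (∀ U, c U ≠ 0 → P U) ∧
        ∀ g : G, ∑ᶠ U, (c U : ℂ) * ind U (fun _ => (1 : ℂ)) g = f g}
      zero_mem' := ⟨0, fun U h => absurd rfl h, fun g => by simp⟩
      add_mem' := by
        rintro a b ⟨c, hc, h⟩ ⟨c', hc', h'⟩
        refine ⟨c + c', fun U hU => ?_, fun g => ?_⟩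
        · by_cases h0 : c U = 0
          · exact hc' U (by intro h1; apply hU; simp [h0, h1])
          · exact hc U h0
        · rw [Pi.add_apply, ← h g, ← h' g, ← finsum_add_distrib (Set.toFinite _) (Set.toFinite _)]
          refine finsum_congr fun U => ?_
          simp only [Pi.add_apply]
          push_cast
          ring
      neg_mem' := by
        rintro a ⟨c, hc, h⟩
        refine ⟨-c, fun U hU => hc U (by intro h0; apply hU; simp [h0]), fun g => ?_⟩
        rw [Pi.neg_apply, ← h g, ← finsum_neg_distrib]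
        refine finsum_congr fun U => ?_
        simp }
  have h1 : PG P ≤ S := by
    rw [PG, AddSubgroup.closure_le]
    rintro f ⟨U, hU, rfl⟩
    refine ⟨Pi.single U 1, fun W hW => ?_, fun g => ?_⟩
    · have h2 : W = U := by
        by_contra h3
        exact hW (Pi.single_eq_of_ne h3 _)
      subst h2
      exact hU
    · rw [finsum_eq_single _ U]
      · rw [Pi.single_eq_same, Int.cast_one, one_mul]
      · intro W hW
        rw [Pi.single_eq_of_ne hW, Int.cast_zero, zero_mul]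
  exact h1 hf

/-- **the relation** -/
theorem relation [Fintype (Subgroup G)] [N.Normal] (h0 : N ≤ H₀) (h1 : N ≤ H₁)
    (hfix : a₀ * fx H₀ c = a₁ * fx H₁ c) (hc : c * c = 1) (hcN : c ∉ N) (hcent : ∀ g : G, g * c = c * g → g ∈ N ∨ c * g ∈ N) :
    ∃ (j : ℕ) (a : Subgroup G → ℤ), (∀ V, a V ≠ 0 → Hyper V ∧ Free c V) ∧
      ∀ g : G, ∑ V, (a V : ℂ) * ind V (fun _ => (1 : ℂ)) g
        = 2 ^ j * ((a₀ : ℂ) * ind H₀ (fun _ => (1 : ℂ)) g
          - (a₁ : ℂ) * ind H₁ (fun _ => (1 : ℂ)) g) := by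
  obtain ⟨j, hj⟩ := two_mult h0 h1 hfix hc hcN hcent
  obtain ⟨a, ha, ha'⟩ := PG_coeff hj
  refine ⟨j, a, ha, fun g => ?_⟩
  have h2 := ha' g
  rw [finsum_eq_sum_of_fintype] at h2
  rw [h2, Pi.smul_apply, zsmul_eq_mul, psi, ind_one, ind_one]
  push_cast
  ring

end main

end Pool.Agent.K9h40.DT
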