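import Mathlib
import Pool.Agent.K9h41.DC.As

/-!
# Isomorphic number fields, and the identity theorem
-/

set_option autoImplicit false
set_option linter.unusedSectionVars false

namespace Pool.Agent.K9h40.DT

open NumberField NumberField.InfinitePlace IntermediateField IsDedekindDomain Filter Topology
  Pool.Agent.R389 Pool.Agent.K4H74.ST Pool.Agent.K4H74.SC Pool.Agent.K9h41.DC

section iso

variable {k k' : Type} [Field k] [NumberField k] [Field k'] [NumberField k']

lemma val_iso (e : k ≃+* k') {M : Type} [CommGroup M] (A : ArtinInvariant M) :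
    A.val k k (fun _ => 1) = A.val k' k' (fun _ => 1) := by
  classical
  let _ : Algebra k k' := e.toRingHom.toAlgebra
  let f : k ≃ₐ[k] k' := AlgEquiv.ofRingEquiv (f := e) (fun x => rfl)
  have hG : IsGalois k k' := IsGalois.of_algEquiv f
  have h1 := A.val_infl k k k' (fun _ => 1) (isChar_one _)
  have h2 := A.val_ind k k' k' (fun _ => 1) (isChar_one _)
  have hs : Subsingleton (k' ≃ₐ[k] k') := ⟨fun a b => by
    ext x
    obtain ⟨y, rfl⟩ := e.surjective x
    exact (a.commutes y).trans (b.commutes y).symm⟩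
  have hs' : Subsingleton (k' ≃ₐ[k'] k') := ⟨fun a b => by
    ext x
    exact (a.commutes x).trans (b.commutes x).symm⟩
  have h3 : indChar k k' k' (fun _ => 1) = fun _ => 1 := by
    funext g
    rw [indChar]
    have h4 : Nat.card (k' ≃ₐ[k'] k') = 1 := Nat.card_eq_one_iff_unique.mpr ⟨hs', ⟨1⟩⟩
    rw [h4, Nat.cast_one, inv_one, one_mul,
      finsum_eq_single _ (1 : k' ≃ₐ[k] k') (fun x hx => absurd (Subsingleton.elim x 1) hx),
      finsum_eq_single _ (1 : k' ≃ₐ[k'] k') (fun x hx => absurd (Subsingleton.elim x 1) hx),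
      finsum_eq_single _ (Subsingleton.elim _ _) (fun x hx => absurd rfl hx)]
  rw [h3] at h2
  rw [← h2, ← h1]

lemma finrank_iso (e : k ≃+* k') : Module.finrank ℚ k = Module.finrank ℚ k' :=
  (AlgEquiv.ofRingEquiv (f := e) (fun x => by simp) : k ≃ₐ[ℚ] k').toLinearEquiv.finrank_eq

lemma real_iso (e : k ≃+* k') : nrRealPlaces k = nrRealPlaces k' := by
  classical
  rw [← card_real_embeddings, ← card_real_embeddings]
  refine Fintype.card_congr (Equiv.subtypeEquiv
    { toFun := fun φ => φ.comp (e.symm : k' →+* k)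
      invFun := fun φ => φ.comp (e : k →+* k')
      left_inv := fun φ => by
        ext x
        simp
      right_inv := fun φ => by
        ext x
        simp } fun φ => ?_)
  rw [ComplexEmbedding.isReal_iff, ComplexEmbedding.isReal_iff]
  constructor
  · intro h
    ext x
    exact RingHom.congr_fun h (e.symm x)
  · intro h
    ext x
    have h1 := RingHom.congr_fun h (e x)
    change star (φ (e.symm (e x))) = φ (e.symm (e x)) at h1
    rw [RingEquiv.symm_apply_apply] at h1
    exact h1

lemma complex_iso (e : k ≃+* k') : nrComplexPlaces k = nrComplexPlaces k' := by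
  have h1 := card_add_two_mul_card_eq_rank k
  have h2 := card_add_two_mul_card_eq_rank k'
  rw [real_iso e, finrank_iso e] at h1
  omega

variable {E : Type} [Field E] (D : MotiveData E) (ι : E →+* ℂ)

lemma lg_iso (e : k ≃+* k') {s : ℂ} (hs : 1 + (D.w : ℝ) / 2 < s.re) :
    lg D ι k s = lg D ι k' s := by
  have h := val_iso e (LInv (wt D ι) (wt_bdd D ι) hs)
  simp only [LInv_val] at h
  exact Multiplicative.ofAdd.injective h

lemma hasLValue_iso (e : k ≃+* k') {m : ℤ} {z : ℂ} (h : HasLValue D ι k m z) :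
    HasLValue D ι k' m z := by
  obtain ⟨f, h1, h2, h3⟩ := h
  refine ⟨f, h1, fun s hs => ?_, h3⟩
  rw [(h2 s hs).unique (hasProd_euler D ι hs), lg_iso D ι e hs]
  exact hasProd_euler D ι hs

end iso

/-- the identity theorem -/
lemma ident {f g : ℂ → ℂ} {a b : ℝ} (hf : ∀ s : ℂ, a ≤ s.re → MeromorphicAt f s)
    (hg : ∀ s : ℂ, a ≤ s.re → MeromorphicAt g s) (h : ∀ s : ℂ, b < s.re → f s = g s) {s₀ : ℂ}
    (hs₀ : a ≤ s₀.re) : f =ᶠ[𝓝[≠] s₀] g := by
  have hM : MeromorphicOn (f - g) {s : ℂ | a ≤ s.re} := fun s hs => (hf s hs).sub (hg s hs)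
  have hpc : IsPreconnected {s : ℂ | a ≤ s.re} := (convex_halfSpace_re_ge a).isPreconnected
  by_contra hcon
  have h1 : meromorphicOrderAt (f - g) s₀ ≠ ⊤ := by
    rw [Ne, meromorphicOrderAt_eq_top_iff]
    intro h2
    apply hcon
    filter_upwards [h2] with s hs
    exact sub_eq_zero.mp hs
  let s₁ : ℂ := ((max a b + 1 : ℝ) : ℂ)
  have hre : s₁.re = max a b + 1 := Complex.ofReal_re _
  have hs₁ : s₁ ∈ {s : ℂ | a ≤ s.re} := by
    change a ≤ s₁.re
    rw [hre]
    linarith [le_max_left a b]
  have h2 := hM.meromorphicOrderAt_ne_top_of_isPreconnected hpc hs₀ hs₁ h1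
  apply h2
  rw [meromorphicOrderAt_eq_top_iff]
  have h3 : {s : ℂ | b < s.re} ∈ 𝓝 s₁ := by
    refine (isOpen_lt continuous_const Complex.continuous_re).mem_nhds ?_
    change b < s₁.re
    rw [hre]
    linarith [le_max_right a b]
  filter_upwards [nhdsWithin_le_nhds h3] with s hs
  rw [Pi.sub_apply, h s hs, sub_self]

end Pool.Agent.K9h40.DT
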