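import Mathlib
import Pool.Agent.K9h40.DT.Grp

/-!
# Permutation characters which are trivial on the complex conjugations
-/

set_option autoImplicit false
set_option linter.unusedSectionVars false

namespace Pool.Agent.K9h40.DT

open Pool.Agent.R389 Pool.Agent.H302R3 MulAction Pool.Agent.K9h41.DC

section chain

variable {U : Type} [Group U] [Finite U]

/-- subgroups without elements of `X` -/
def FreeX (X : Set U) (V : Subgroup U) : Prop := ∀ x ∈ X, x ∉ V

lemma card_two {A B : Subgroup U} (hAB : A ≤ B) {x : U} (hx : x ∈ B)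
    (h : ∀ b ∈ B, (b * x ∈ A ↔ b ∉ A)) : Nat.card B = 2 * Nat.card A := by
  have hidx : (A.subgroupOf B).index = 2 := by
    rw [Subgroup.index_eq_two_iff]
    refine ⟨⟨x, hx⟩, fun b => ?_⟩
    simp only [Subgroup.mem_subgroupOf, Subgroup.coe_mul]
    by_cases hb : (b : U) ∈ A
    · exact Or.inr ⟨hb, fun h1 => (h b b.2).mp h1 hb⟩
    · exact Or.inl ⟨(h b b.2).mpr hb, hb⟩
  have h2 := (A.subgroupOf B).card_mul_index
  rw [hidx] at h2
  rw [← h2, Nat.card_congr (Subgroup.subgroupOfEquivOfLe hAB).toEquiv, mul_comm]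

lemma step {X : Set U} {x₀ : U} (hx₀ : x₀ ∈ X) {Gp : Subgroup U} (hGp : Gp.index = 2)
    (hX : ∀ x ∈ X, x ∉ Gp) {W₁ W : Subgroup U} (hW : W₁ ≤ W) (hXW : ∀ x ∈ X, x ∈ W₁)
    (hidx : ∀ a ∈ W, ∀ b ∈ W, (a * b ∈ W₁ ↔ (a ∈ W₁ ↔ b ∈ W₁)))
    (hcard : Nat.card W = 2 * Nat.card W₁) :
    ind W₁ (fun _ => (1 : ℂ)) - (2 : ℤ) • ind W (fun _ => (1 : ℂ)) ∈ PG (FreeX X) := by
  classical
  have : Fintype U := Fintype.ofFinite _
  have hx₁ : x₀ ∈ W₁ := hXW x₀ hx₀
  have hxG : x₀ ∉ Gp := hX x₀ hx₀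
  have hG : ∀ a b : U, a * b ∈ Gp ↔ (a ∈ Gp ↔ b ∈ Gp) := fun a b =>
    Subgroup.mul_mem_iff_of_index_two hGp
  let V₂ : Subgroup U :=
    { carrier := {w | w ∈ W ∧ (w ∈ W₁ ↔ w ∈ Gp)}
      one_mem' := ⟨one_mem _, by simp [one_mem]⟩
      mul_mem' := by
        rintro a b ⟨ha, ha'⟩ ⟨hb, hb'⟩
        refine ⟨mul_mem ha hb, ?_⟩
        rw [hidx a ha b hb, hG a b, ha', hb']
      inv_mem' := by
        rintro a ⟨ha, ha'⟩
        refine ⟨inv_mem ha, ?_⟩
        rw [inv_mem_iff, inv_mem_iff]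
        exact ha' }
  have hV₂ : ∀ w, w ∈ V₂ ↔ w ∈ W ∧ (w ∈ W₁ ↔ w ∈ Gp) := fun w => Iff.rfl
  have c1 : Nat.card W = 2 * Nat.card (W ⊓ Gp : Subgroup U) := by
    refine card_two inf_le_left (hW hx₁) fun b hb => ?_
    have := hG b x₀
    simp only [Subgroup.mem_inf]
    have h1 : b * x₀ ∈ W := mul_mem hb (hW hx₁)
    tauto
  have c2 : Nat.card W = 2 * Nat.card V₂ := by
    refine card_two (fun w hw => ((hV₂ w).mp hw).1) (hW hx₁) fun b hb => ?_
    have h0 := hG b x₀
    have h1 : b * x₀ ∈ W := mul_mem hb (hW hx₁)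
    have h2 : b * x₀ ∈ W₁ ↔ b ∈ W₁ := W₁.mul_mem_cancel_right hx₁
    rw [hV₂, hV₂]
    tauto
  have c3 : Nat.card W₁ = 2 * Nat.card (W₁ ⊓ Gp : Subgroup U) := by
    refine card_two inf_le_left hx₁ fun b hb => ?_
    have := hG b x₀
    simp only [Subgroup.mem_inf]
    have h1 : b * x₀ ∈ W₁ := mul_mem hb hx₁
    tauto
  have hkey : ind W₁ (fun _ => (1 : ℂ)) - (2 : ℤ) • ind W (fun _ => (1 : ℂ))
      = ind (W₁ ⊓ Gp : Subgroup U) (fun _ => (1 : ℂ)) - ind (W ⊓ Gp : Subgroup U) (fun _ => (1 : ℂ))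
        - ind V₂ (fun _ => (1 : ℂ)) := by
    funext g
    change ind W₁ (fun _ => (1 : ℂ)) g - (2 : ℤ) • ind W (fun _ => (1 : ℂ)) g
      = ind (W₁ ⊓ Gp : Subgroup U) (fun _ => (1 : ℂ)) g
        - ind (W ⊓ Gp : Subgroup U) (fun _ => (1 : ℂ)) g - ind V₂ (fun _ => (1 : ℂ)) g
    rw [zsmul_eq_mul]
    have hpt : ∀ y : U, ext W₁ (fun _ => (1 : ℂ)) y - ext W (fun _ => (1 : ℂ)) y
        = 2 * ext (W₁ ⊓ Gp : Subgroup U) (fun _ => (1 : ℂ)) y
          - ext (W ⊓ Gp : Subgroup U) (fun _ => (1 : ℂ)) y - ext V₂ (fun _ => (1 : ℂ)) y := by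
      intro y
      by_cases h1 : y ∈ W₁
      · by_cases h2 : y ∈ Gp
        · rw [ext_mem _ _ h1, ext_mem _ _ (hW h1), ext_mem _ _ (Subgroup.mem_inf.mpr ⟨h1, h2⟩),
            ext_mem _ _ (Subgroup.mem_inf.mpr ⟨hW h1, h2⟩),
            ext_mem _ _ ((hV₂ y).mpr ⟨hW h1, by tauto⟩)]
          norm_num
        · rw [ext_mem _ _ h1, ext_mem _ _ (hW h1),
            ext_not _ _ (fun h => h2 (Subgroup.mem_inf.mp h).2),
            ext_not _ _ (fun h => h2 (Subgroup.mem_inf.mp h).2),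
            ext_not _ _ (fun h => by have := ((hV₂ y).mp h).2; tauto)]
          norm_num
      · by_cases h3 : y ∈ W
        · by_cases h2 : y ∈ Gp
          · rw [ext_not _ _ h1, ext_mem _ _ h3,
              ext_not _ _ (fun h => h1 (Subgroup.mem_inf.mp h).1),
              ext_mem _ _ (Subgroup.mem_inf.mpr ⟨h3, h2⟩),
              ext_not _ _ (fun h => by have := ((hV₂ y).mp h).2; tauto)]
            norm_num
          · rw [ext_not _ _ h1, ext_mem _ _ h3,
              ext_not _ _ (fun h => h1 (Subgroup.mem_inf.mp h).1),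
              ext_not _ _ (fun h => h2 (Subgroup.mem_inf.mp h).2),
              ext_mem _ _ ((hV₂ y).mpr ⟨h3, by tauto⟩)]
            norm_num
        · rw [ext_not _ _ h1, ext_not _ _ h3,
            ext_not _ _ (fun h => h1 (Subgroup.mem_inf.mp h).1),
            ext_not _ _ (fun h => h3 (Subgroup.mem_inf.mp h).1),
            ext_not _ _ (fun h => h3 ((hV₂ y).mp h).1)]
          norm_num
    have hS : ∑ x : U, ext W₁ (fun _ => (1 : ℂ)) (x⁻¹ * g * x)
          - ∑ x : U, ext W (fun _ => (1 : ℂ)) (x⁻¹ * g * x)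
        = 2 * ∑ x : U, ext (W₁ ⊓ Gp : Subgroup U) (fun _ => (1 : ℂ)) (x⁻¹ * g * x)
          - ∑ x : U, ext (W ⊓ Gp : Subgroup U) (fun _ => (1 : ℂ)) (x⁻¹ * g * x)
          - ∑ x : U, ext V₂ (fun _ => (1 : ℂ)) (x⁻¹ * g * x) := by
      rw [Finset.mul_sum, ← Finset.sum_sub_distrib, ← Finset.sum_sub_distrib,
        ← Finset.sum_sub_distrib]
      exact Finset.sum_congr rfl fun x _ => hpt _
    have k0 : (Nat.card (W₁ ⊓ Gp : Subgroup U) : ℂ) ≠ 0 := card_ne'
    have k1 : Nat.card (W ⊓ Gp : Subgroup U) = 2 * Nat.card (W₁ ⊓ Gp : Subgroup U) := by omega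
    have k2 : Nat.card V₂ = 2 * Nat.card (W₁ ⊓ Gp : Subgroup U) := by omega
    have k3 : Nat.card W = 4 * Nat.card (W₁ ⊓ Gp : Subgroup U) := by omega
    rw [ind_eq, ind_eq, ind_eq, ind_eq, ind_eq, k1, k2, k3, c3]
    push_cast
    field_simp
    linear_combination 4 * hS
  rw [hkey]
  have m1 : ∀ {V : Subgroup U}, FreeX X V → ind V (fun _ => (1 : ℂ)) ∈ PG (FreeX X) :=
    fun {V} h => AddSubgroup.subset_closure ⟨V, h, rfl⟩
  refine sub_mem (sub_mem (m1 ?_) (m1 ?_)) (m1 ?_)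
  · intro x hx h
    exact hX x hx (Subgroup.mem_inf.mp h).2
  · intro x hx h
    exact hX x hx (Subgroup.mem_inf.mp h).2
  · intro x hx h
    have h1 := ((hV₂ x).mp h).2
    exact hX x hx (h1.mp (hXW x hx))

lemma ind_top' : ind (⊤ : Subgroup U) (fun _ => (1 : ℂ)) = fun _ => 1 := by
  classical
  have : Fintype U := Fintype.ofFinite _
  funext g
  rw [ind_eq]
  have h1 : ∀ x : U, ext (⊤ : Subgroup U) (fun _ => (1 : ℂ)) (x⁻¹ * g * x) = 1 :=
    fun x => ext_mem _ _ (Subgroup.mem_top _)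
  rw [Finset.sum_congr rfl (fun x _ => h1 x)]
  have h2 : Nat.card (⊤ : Subgroup U) = Fintype.card U := by
    rw [← Nat.card_eq_fintype_card]
    exact Nat.card_congr Subgroup.topEquiv.toEquiv
  rw [h2, Finset.sum_const, Finset.card_univ, nsmul_eq_mul, mul_one]
  exact inv_mul_cancel₀ (by exact_mod_cast Fintype.card_pos.ne')

variable {Q : Type} [Group Q] [Finite Q]

theorem chain {X : Set U} {x₀ : U} (hx₀ : x₀ ∈ X) {Gp : Subgroup U} (hGp : Gp.index = 2)
    (hX : ∀ x ∈ X, x ∉ Gp) (π : U →* Q) (hπ : Function.Surjective π) (hQ : IsPGroup 2 Q)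
    (hXπ : ∀ x ∈ X, π x = 1) : ∀ (n : ℕ) (L : Subgroup Q), L.index = n →
      ind (L.comap π) (fun _ => (1 : ℂ)) - (n : ℤ) • (fun _ => (1 : ℂ)) ∈ PG (FreeX X) := by
  classical
  intro n
  induction n using Nat.strong_induction_on with
  | _ n ih =>
    intro L hL
    by_cases hT : L = ⊤
    · subst hT
      rw [Subgroup.index_top] at hL
      subst hL
      rw [Subgroup.comap_top, ind_top']
      simp only [Nat.cast_one, one_smul, sub_self]
      exact zero_mem _
    · have hf : Fact (Nat.Prime 2) := ⟨Nat.prime_two⟩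
      obtain ⟨b, hb⟩ := IsPGroup.iff_card.mp hQ
      obtain ⟨a, ha⟩ := IsPGroup.iff_card.mp (hQ.to_subgroup L)
      have h1 := L.card_mul_index
      rw [hL, ha, hb] at h1
      have hn1 : n ≠ 1 := by
        intro h
        rw [h] at hL
        exact hT (Subgroup.index_eq_one.mp hL)
      have hab : a < b := by
        by_contra hcon
        have h2 : 2 ^ b ≤ 2 ^ a := Nat.pow_le_pow_right (by norm_num) (not_lt.mp hcon)
        have h3 : 0 < 2 ^ a := by positivity
        have h4 : n ≠ 0 := by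
          rintro rfl
          rw [mul_zero] at h1
          have : 0 < 2 ^ b := by positivity
          omega
        have h5 : 2 ≤ n := by omega
        nlinarith
      have hdvd : 2 ^ (a + 1) ∣ Nat.card Q := by
        rw [hb]
        exact pow_dvd_pow 2 hab
      obtain ⟨K, hK, hLK⟩ := Sylow.exists_subgroup_card_pow_succ hdvd ha
      have h2 := K.card_mul_index
      rw [hK, hb, ← h1, pow_succ, mul_assoc] at h2
      have hKn : 2 * K.index = n := Nat.eq_of_mul_eq_mul_left (by positivity) h2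
      have hK0 : K.index ≠ 0 := Subgroup.index_ne_zero_of_finite
      have hIH := ih K.index (by omega) K rfl
      have hle : L.comap π ≤ K.comap π := Subgroup.comap_mono hLK
      have hi1 : (L.comap π).index = n := by rw [Subgroup.index_comap_of_surjective _ hπ, hL]
      have hi2 : (K.comap π).index = K.index := Subgroup.index_comap_of_surjective _ hπ
      have hrel : (L.comap π).relIndex (K.comap π) = 2 := by
        have h3 := Subgroup.relIndex_mul_index hle
        rw [hi1, hi2, ← hKn] at h3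
        exact Nat.eq_of_mul_eq_mul_right (Nat.pos_of_ne_zero hK0) h3
      have hstep := step hx₀ hGp hX hle (fun x hx => by
        rw [Subgroup.mem_comap, hXπ x hx]
        exact one_mem _) (fun x hx y hy => by
        have h3 := Subgroup.mul_mem_iff_of_index_two (H := (L.comap π).subgroupOf (K.comap π))
          hrel (a := ⟨x, hx⟩) (b := ⟨y, hy⟩)
        simpa only [Subgroup.mem_subgroupOf, Subgroup.coe_mul] using h3) (by
        have h3 := (L.comap π).card_mul_index
        have h4 := (K.comap π).card_mul_index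
        rw [hi1, ← h4, hi2, ← hKn, mul_comm 2 K.index, ← mul_assoc, mul_comm _ K.index,
          mul_assoc, mul_comm (Nat.card (K.comap π)) K.index] at h3
        have h5 := Nat.eq_of_mul_eq_mul_left (Nat.pos_of_ne_zero hK0) h3
        omega)
      have h3 : ind (L.comap π) (fun _ => (1 : ℂ)) - (n : ℤ) • (fun _ => (1 : ℂ))
          = (ind (L.comap π) (fun _ => (1 : ℂ))
              - (2 : ℤ) • ind (K.comap π) (fun _ => (1 : ℂ)))
            + (2 : ℤ) • (ind (K.comap π) (fun _ => (1 : ℂ))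
              - (K.index : ℤ) • (fun _ => (1 : ℂ))) := by
        rw [← hKn, smul_sub, smul_smul]
        push_cast
        abel
      rw [h3]
      exact add_mem hstep (zsmul_mem hIH 2)

end chain

section two

variable {G : Type} [Group G] [Finite G] {M Gp H : Subgroup G} {c : G}

/-- the function minus its value at the identity -/
def devHom (U : Type) [Group U] : (U → ℂ) →+ (U → ℂ) :=
  AddMonoidHom.mk' (fun f u => f u - f 1) (fun a b => by
    funext u
    change (a u + b u) - (a 1 + b 1) = (a u - a 1) + (b u - b 1)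
    ring)

lemma mem_C [M.Normal] (hMH : M ≤ H) (hcM : c ∈ M) (hGp : Gp.index = 2)
    (hcG : c ∉ Gp) (hcc : c * c = 1) (hcent : ∀ g : G, g * c = c * g → g ∈ M) {U : Subgroup G}
    (hU : HypP 2 U) (hcU : ¬ Free c U) :
    (fun g => (fx U g : ℂ) * ((fx H g : ℂ) - fx H 1))
      ∈ PG (G := G) (fun V => HypP 2 V ∧ Free c V) := by
  classical
  rw [Free] at hcU
  push Not at hcU
  obtain ⟨x, hx⟩ := hcU
  have htM : x⁻¹ * c * x ∈ M := by
    have := ‹M.Normal›.conj_mem c hcM x⁻¹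
    rwa [inv_inv] at this
  have hU' := hU
  obtain ⟨z, hz2, hzn, hzp⟩ := hU'
  -- `z` acts trivially
  have hzM : (z : G) ∈ M := by
    obtain ⟨r, hr⟩ := hzn ⟨x⁻¹ * c * x, hx⟩
    simp only at hr
    have hr' : (z : G) ^ r = (x⁻¹ * c * x) * z * (x⁻¹ * c * x)⁻¹ := by
      have := congrArg Subtype.val hr
      simpa using this
    have htt : (x⁻¹ * c * x)⁻¹ = x⁻¹ * c * x := by
      rw [inv_eq_iff_mul_eq_one]
      have : (x⁻¹ * c * x) * (x⁻¹ * c * x) = x⁻¹ * (c * c) * x := by group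
      rw [this, hcc]
      group
    have hcomm : (z : G) ^ (r + 1) * (x⁻¹ * c * x) = (x⁻¹ * c * x) * (z : G) ^ (r + 1) := by
      have h1 : (x⁻¹ * c * x) * (z : G) ^ (r + 1) * (x⁻¹ * c * x)⁻¹ = (z : G) ^ (r + 1) := by
        have h2 : (x⁻¹ * c * x) * (z : G) ^ r * (x⁻¹ * c * x)⁻¹ = z := by
          rw [hr', htt]
          have h3 : (x⁻¹ * c * x) * ((x⁻¹ * c * x) * z * (x⁻¹ * c * x)) * (x⁻¹ * c * x)
              = ((x⁻¹ * c * x) * (x⁻¹ * c * x)) * z * ((x⁻¹ * c * x) * (x⁻¹ * c * x)) := by group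
          have h4 : (x⁻¹ * c * x) * (x⁻¹ * c * x) = 1 := by
            rw [← inv_eq_iff_mul_eq_one]
            exact htt
          rw [h3, h4, one_mul, mul_one]
        rw [zpow_add, zpow_one]
        have h3 : (x⁻¹ * c * x) * ((z : G) ^ r * z) * (x⁻¹ * c * x)⁻¹
            = ((x⁻¹ * c * x) * (z : G) ^ r * (x⁻¹ * c * x)⁻¹)
              * ((x⁻¹ * c * x) * z * (x⁻¹ * c * x)⁻¹) := by group
        rw [h3, h2, ← hr', ← zpow_one_add, add_comm, zpow_add, zpow_one]
      have h2 := mul_inv_eq_iff_eq_mul.mp h1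
      exact h2.symm
    have hw : (z : G) ^ (r + 1) ∈ M := by
      have h1 : (x * (z : G) ^ (r + 1) * x⁻¹) * c = c * (x * (z : G) ^ (r + 1) * x⁻¹) := by
        have h2 : x * ((z : G) ^ (r + 1) * (x⁻¹ * c * x)) * x⁻¹
            = x * ((x⁻¹ * c * x) * (z : G) ^ (r + 1)) * x⁻¹ := by rw [hcomm]
        have h3 : x * ((z : G) ^ (r + 1) * (x⁻¹ * c * x)) * x⁻¹
            = (x * (z : G) ^ (r + 1) * x⁻¹) * c := by group
        have h4 : x * ((x⁻¹ * c * x) * (z : G) ^ (r + 1)) * x⁻¹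
            = c * (x * (z : G) ^ (r + 1) * x⁻¹) := by group
        rw [h3, h4] at h2
        exact h2
      have h2 := ‹M.Normal›.conj_mem _ (hcent _ h1) x⁻¹
      have h3 : x⁻¹ * (x * (z : G) ^ (r + 1) * x⁻¹) * x⁻¹⁻¹ = (z : G) ^ (r + 1) := by group
      rwa [h3] at h2
    have hw' : (z : G) ^ r * (z : G)⁻¹ ∈ M := by
      rw [hr']
      have h1 : (x⁻¹ * c * x) * z * (x⁻¹ * c * x)⁻¹ * (z : G)⁻¹
          = (x⁻¹ * c * x) * ((z : G) * (x⁻¹ * c * x)⁻¹ * (z : G)⁻¹) := by group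
      rw [h1]
      exact mul_mem htM (‹M.Normal›.conj_mem _ (inv_mem htM) _)
    have hz2' : (z : G) ^ 2 ∈ M := by
      have h1 := mul_mem (inv_mem hw') hw
      have h2 : ((z : G) ^ r * (z : G)⁻¹)⁻¹ * (z : G) ^ (r + 1) = (z : G) ^ 2 := by
        rw [← zpow_sub_one, ← zpow_neg, ← zpow_add, ← zpow_natCast]
        congr 1
        push_cast
        ring
      rwa [h2] at h1
    have hodd : Odd (orderOf z) := (Nat.coprime_two_right).mp hz2
    obtain ⟨s, hs⟩ := hodd
    have h1 : (z : G) ^ (orderOf z + 1) = z := by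
      have h2 : (z : G) ^ orderOf z = 1 := by
        rw [← Subgroup.coe_pow, pow_orderOf_eq_one, Subgroup.coe_one]
      rw [pow_succ, h2, one_mul]
    rw [hs] at h1
    have h2 : 2 * s + 1 + 1 = 2 * (s + 1) := by ring
    rw [h2, pow_mul] at h1
    rw [← h1]
    exact pow_mem hz2' _
  let Mu : Subgroup U := M.subgroupOf U
  have hMu : Mu.Normal := inferInstance
  let π : U →* (U ⧸ Mu) := QuotientGroup.mk' Mu
  have hπ : Function.Surjective π := QuotientGroup.mk'_surjective Mu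
  have hker : π.ker = Mu := QuotientGroup.ker_mk' Mu
  have hQ : IsPGroup 2 (U ⧸ Mu) := by
    intro q
    obtain ⟨u, rfl⟩ := hπ q
    obtain ⟨k, hk⟩ := hzp u
    refine ⟨k, ?_⟩
    rw [← map_pow, ← MonoidHom.mem_ker, hker, Subgroup.mem_subgroupOf]
    obtain ⟨i, hi⟩ := hk
    simp only at hi
    rw [← hi]
    have := zpow_mem hzM i
    simpa using this
  let X : Set U := {u | ∃ y : G, (u : G) = y⁻¹ * c * y}
  have hx₀ : (⟨x⁻¹ * c * x, hx⟩ : U) ∈ X := ⟨x, rfl⟩
  have hG : ∀ a b : G, a * b ∈ Gp ↔ (a ∈ Gp ↔ b ∈ Gp) := fun a b =>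
    Subgroup.mul_mem_iff_of_index_two hGp
  have hconjG : ∀ y : G, y⁻¹ * c * y ∉ Gp := by
    intro y h
    have h1 := hG (y⁻¹ * c) y
    have h2 := hG y⁻¹ c
    have h3 : y⁻¹ ∈ Gp ↔ y ∈ Gp := inv_mem_iff
    tauto
  have hX : ∀ u ∈ X, u ∉ Gp.subgroupOf U := by
    rintro u ⟨y, hy⟩ h
    rw [Subgroup.mem_subgroupOf, hy] at h
    exact hconjG y h
  have hGpU : (Gp.subgroupOf U).index = 2 := by
    rw [Subgroup.index_eq_two_iff]
    refine ⟨⟨x⁻¹ * c * x, hx⟩, fun b => ?_⟩
    simp only [Subgroup.mem_subgroupOf, Subgroup.coe_mul]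
    have h1 := hG (b : G) (x⁻¹ * c * x)
    have h2 := hconjG x
    by_cases hb : (b : G) ∈ Gp
    · exact Or.inr ⟨hb, fun h3 => h2 ((h1.mp h3).mp hb)⟩
    · exact Or.inl ⟨h1.mpr ⟨fun h3 => absurd h3 hb, fun h3 => absurd h3 h2⟩, hb⟩
  have hXπ : ∀ u ∈ X, π u = 1 := by
    rintro u ⟨y, hy⟩
    rw [← MonoidHom.mem_ker, hker, Subgroup.mem_subgroupOf, hy]
    have := ‹M.Normal›.conj_mem c hcM y⁻¹
    rwa [inv_inv] at this
  -- the action of `U`
  have h1 : (fun u : U => (Nat.card {q : G ⧸ H // u • q = q} : ℂ))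
      ∈ PG (G := U) (fun S => π.ker ≤ S) := by
    refine count_mem' (G := U) (fun S => π.ker ≤ S) (X := G ⧸ H) fun q => ?_
    intro u hu
    rw [hker, Subgroup.mem_subgroupOf] at hu
    obtain ⟨y, rfl⟩ := QuotientGroup.mk_surjective q
    rw [mem_stabilizer_iff]
    change (u : G) • (y : G ⧸ H) = y
    rw [smul_coset_iff]
    apply hMH
    have := ‹M.Normal›.conj_mem _ hu y⁻¹
    rwa [inv_inv] at this
  have h2 : PG (G := U) (fun S => π.ker ≤ S) ≤ (PG (G := U) (FreeX X)).comap (devHom U) := by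
    rw [PG, AddSubgroup.closure_le]
    rintro f ⟨S, hS, rfl⟩
    rw [SetLike.mem_coe, AddSubgroup.mem_comap]
    have h3 : (S.map π).comap π = S := Subgroup.comap_map_eq_self hS
    have h4 := chain hx₀ hGpU hX π hπ hQ hXπ _ (S.map π) rfl
    rw [h3] at h4
    convert h4 using 1
    funext u
    change ind S (fun _ => 1) u - ind S (fun _ => 1) 1 = ind S (fun _ => 1) u
      - (((S.map π).index : ℤ) • (1 : ℂ))
    rw [zsmul_eq_mul, mul_one, ← Subgroup.index_comap_of_surjective _ hπ, h3, ind_one S 1, fx]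
    congr 1
    push_cast
    rw [Subgroup.index]
    congr 1
    simp only [one_smul]
    exact Nat.card_congr (Equiv.subtypeUnivEquiv fun _ => trivial)
  have h3 := h2 h1
  rw [AddSubgroup.mem_comap] at h3
  have h4 : PG (G := U) (FreeX X)
      ≤ (PG (G := G) (fun V => HypP 2 V ∧ Free c V)).comap (indHom U) := by
    rw [PG, AddSubgroup.closure_le]
    rintro f ⟨V, hV, rfl⟩
    rw [SetLike.mem_coe, AddSubgroup.mem_comap, indHom_apply, ind_ind]
    refine AddSubgroup.subset_closure ⟨V.map U.subtype, ⟨?_, ?_⟩, rfl⟩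
    · have hle : V.map U.subtype ≤ U := Subgroup.map_subtype_le V
      exact HypP.of_injective (Subgroup.inclusion hle) (Subgroup.inclusion_injective hle) hU
    · rintro y ⟨v, hv, hvy⟩
      exact hV v ⟨y, hvy⟩ hv
  have h5 := h4 h3
  rw [AddSubgroup.mem_comap, indHom_apply] at h5
  convert h5 using 1
  funext g
  have h6 := ind_mul U (fun _ => (1 : ℂ)) (F := fun g : G => (fx H g : ℂ) - fx H 1) (fun g y => by
    simp only [fx_conj]) g
  rw [ind_one] at h6
  rw [← h6]
  congr 1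
  funext u
  rw [one_mul]
  rfl

variable {N H₀ H₁ : Subgroup G} {a₀ a₁ : ℕ}

/-- **`psi` itself, if `c` acts trivially** -/
theorem one_mult [M.Normal] (h0 : M ≤ H₀) (h1 : M ≤ H₁) (hcM : c ∈ M) (hGp : Gp.index = 2)
    (hcG : c ∉ Gp) (hcc : c * c = 1) (hcent : ∀ g : G, g * c = c * g → g ∈ M)
    (hfix : a₀ * fx H₀ 1 = a₁ * fx H₁ 1) :
    psi H₀ H₁ a₀ a₁ ∈ PG (G := G) (fun V => Hyper V ∧ Free c V) := by
  classical
  have : Fintype G := Fintype.ofFinite _
  have hfix' : (a₀ : ℂ) * fx H₀ 1 = (a₁ : ℂ) * fx H₁ 1 := by exact_mod_cast hfix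
  -- every prime
  have key : ∀ p : ℕ, p.Prime → ∃ n : ℤ, ¬ (p : ℤ) ∣ n ∧
      n • psi H₀ H₁ a₀ a₁ ∈ PG (G := G) (fun V => Hyper V ∧ Free c V) := by
    intro p hp
    obtain ⟨n, hn, hn'⟩ := exists_const' (G := G) hp
    refine ⟨n, hn, ?_⟩
    let m : (G → ℂ) →+ (G → ℂ) := AddMonoidHom.mk' (fun u g => u g * psi H₀ H₁ a₀ a₁ g)
      (fun a b => by
        funext g
        change (a g + b g) * psi H₀ H₁ a₀ a₁ g = a g * psi H₀ H₁ a₀ a₁ g
          + b g * psi H₀ H₁ a₀ a₁ g
        ring)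
    have h5 : PG (G := G) (fun V => HypP p V ∧ Free c V)
        ≤ PG (G := G) (fun V => Hyper V ∧ Free c V) := by
      rw [PG, AddSubgroup.closure_le]
      rintro f ⟨U, ⟨hU, hU'⟩, rfl⟩
      exact AddSubgroup.subset_closure ⟨U, ⟨⟨p, hp, hU⟩, hU'⟩, rfl⟩
    have h2 : PG (G := G) (fun U => HypP p U)
        ≤ (PG (G := G) (fun V => Hyper V ∧ Free c V)).comap m := by
      rw [PG, AddSubgroup.closure_le]
      rintro f ⟨U, hU, rfl⟩
      rw [SetLike.mem_coe, AddSubgroup.mem_comap]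
      have h3 : m (ind U (fun _ => 1)) = fun g => (fx U g : ℂ) * psi H₀ H₁ a₀ a₁ g := by
        funext g
        change ind U (fun _ => 1) g * psi H₀ H₁ a₀ a₁ g = _
        rw [ind_one]
      rw [h3]
      by_cases hcU : Free c U
      · have h4 := h5 (mem_A hU hcU H₀)
        have h5 := h5 (mem_A hU hcU H₁)
        have h6 : (fun g => (fx U g : ℂ) * psi H₀ H₁ a₀ a₁ g)
            = (a₀ : ℤ) • (fun g => (fx U g : ℂ) * fx H₀ g)
              - (a₁ : ℤ) • (fun g => (fx U g : ℂ) * fx H₁ g) := by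
          funext g
          change (fx U g : ℂ) * psi H₀ H₁ a₀ a₁ g
            = (a₀ : ℤ) • ((fx U g : ℂ) * fx H₀ g) - (a₁ : ℤ) • ((fx U g : ℂ) * fx H₁ g)
          rw [zsmul_eq_mul, zsmul_eq_mul, psi]
          push_cast
          ring
        rw [h6]
        exact sub_mem (zsmul_mem h4 _) (zsmul_mem h5 _)
      · by_cases hp2 : p = 2
        · subst hp2
          have h4 := h5 (mem_C h0 hcM hGp hcG hcc hcent hU hcU)
          have h5 := h5 (mem_C h1 hcM hGp hcG hcc hcent hU hcU)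
          have h6 : (fun g => (fx U g : ℂ) * psi H₀ H₁ a₀ a₁ g)
              = (a₀ : ℤ) • (fun g => (fx U g : ℂ) * ((fx H₀ g : ℂ) - fx H₀ 1))
                - (a₁ : ℤ) • (fun g => (fx U g : ℂ) * ((fx H₁ g : ℂ) - fx H₁ 1)) := by
            funext g
            change (fx U g : ℂ) * psi H₀ H₁ a₀ a₁ g
              = (a₀ : ℤ) • ((fx U g : ℂ) * ((fx H₀ g : ℂ) - fx H₀ 1))
                - (a₁ : ℤ) • ((fx U g : ℂ) * ((fx H₁ g : ℂ) - fx H₁ 1))
            rw [zsmul_eq_mul, zsmul_eq_mul, psi]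
            push_cast
            linear_combination (fx U g : ℂ) * hfix'
          rw [h6]
          exact sub_mem (zsmul_mem h4 _) (zsmul_mem h5 _)
        · have hodd : Odd p := hp.odd_of_ne_two hp2
          have h6 : (fun g => (fx U g : ℂ) * psi H₀ H₁ a₀ a₁ g) = 0 := by
            rw [Free] at hcU
            push Not at hcU
            obtain ⟨x, hx⟩ := hcU
            have htt : (x⁻¹ * c * x) * (x⁻¹ * c * x) = 1 := by
              have : (x⁻¹ * c * x) * (x⁻¹ * c * x) = x⁻¹ * (c * c) * x := by group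
              rw [this, hcc]
              group
            have hUM : ∀ u ∈ U, u ∈ M := by
              intro u hu
              have h7 := hyp_central hodd hU (t := (⟨x⁻¹ * c * x, hx⟩ : U)) (Subtype.ext htt)
                ⟨u, hu⟩
              have h8 : u * (x⁻¹ * c * x) = (x⁻¹ * c * x) * u := congrArg Subtype.val h7
              have h9 : (x * u * x⁻¹) * c = c * (x * u * x⁻¹) := by
                have h10 : x * (u * (x⁻¹ * c * x)) * x⁻¹ = x * ((x⁻¹ * c * x) * u) * x⁻¹ := by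
                  rw [h8]
                have h11 : x * (u * (x⁻¹ * c * x)) * x⁻¹ = (x * u * x⁻¹) * c := by group
                have h12 : x * ((x⁻¹ * c * x) * u) * x⁻¹ = c * (x * u * x⁻¹) := by group
                rw [h11, h12] at h10
                exact h10
              have h10 := ‹M.Normal›.conj_mem _ (hcent _ h9) x⁻¹
              have h11 : x⁻¹ * (x * u * x⁻¹) * x⁻¹⁻¹ = u := by group
              rwa [h11] at h10
            funext g
            rw [← ind_one U g, ← ind_mul U (fun _ => (1 : ℂ))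
              (F := fun g => psi H₀ H₁ a₀ a₁ g) psi_class g]
            have h7 : (fun h : U => (1 : ℂ) * psi H₀ H₁ a₀ a₁ (h : G)) = 0 := by
              funext u
              rw [one_mul, psi, fx_normal h0 (hUM u u.2), fx_normal h1 (hUM u u.2), hfix', sub_self]
              rfl
            rw [h7, ind_zero]
          rw [h6]
          exact zero_mem _
    have h3 := h2 hn'
    rw [AddSubgroup.mem_comap] at h3
    have h4 : m (n • (fun _ => 1 : G → ℂ)) = n • psi H₀ H₁ a₀ a₁ := by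
      funext g
      change (n • (fun _ => 1 : G → ℂ)) g * psi H₀ H₁ a₀ a₁ g = _
      simp only [Pi.smul_apply, zsmul_eq_mul]
      ring
    rw [h4] at h3
    exact h3
  let φ : ℤ →+ (G → ℂ) := zmultiplesHom _ (psi H₀ H₁ a₀ a₁)
  have hφ : ∀ n : ℤ, φ n = n • psi H₀ H₁ a₀ a₁ := fun n => rfl
  obtain ⟨a, ha⟩ := Int.subgroup_cyclic
    ((PG (G := G) (fun V => Hyper V ∧ Free c V)).comap φ)
  have ha' : ∀ n : ℤ, n • psi H₀ H₁ a₀ a₁ ∈ PG (G := G) (fun V => Hyper V ∧ Free c V)
      ↔ a ∣ n := by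
    intro n
    rw [← hφ, ← AddSubgroup.mem_comap, ha, ← AddSubgroup.zmultiples_eq_closure,
      Int.mem_zmultiples_iff]
  have h3 : a.natAbs = 1 := by
    by_contra hcon
    obtain ⟨p, hp, hpa⟩ := Nat.exists_prime_and_dvd hcon
    obtain ⟨n, hn, hn'⟩ := key p hp
    exact hn ((Int.natCast_dvd.mpr hpa).trans ((ha' n).mp hn'))
  have h4 := (ha' 1).mpr (by
    rw [← Int.natAbs_dvd, h3]
    norm_num)
  rwa [one_smul] at h4

end two

end Pool.Agent.K9h40.DT
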