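import Mathlib
import Pool.Agent.K9h40.DT.Grp
import Pool.Agent.K9h40.DT.Tr
import Pool.Agent.K9h40.DT.Fl
import Pool.Agent.K9h40.DT.Iso

/-!
# The relation between the L-values over two number fields
-/

set_option autoImplicit false
set_option linter.unusedSectionVars false

namespace Pool.Agent.K9h40.DT

open NumberField NumberField.InfinitePlace IntermediateField IsDedekindDomain Filter Topology
  Pool.Agent.R389 Pool.Agent.K4H74.ST Pool.Agent.K4H74.SC Pool.Agent.K9h41.DC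

/-- **Deligne's period** of the base change `M_k` of `M` to the number field `k` (regarded as a
motive over `ℚ` by restriction of scalars), with the power of `2 π i`, at the embedding `ι` of `E`:
`(2 π i)^(m n [k : ℚ]) c^ε(M)^(r₁ + r₂) c^(-ε)(M)^(r₂) δ^n`, where `ε` is the sign of `(-1)^m`, `k`
has `r₁` real and `r₂` complex places, and `δ` is a square root of the discriminant of `k`. -/
noncomputable def delignePeriod {E : Type} [Field E] (D : MotiveData E) (ι : E →+* ℂ) (k : Type)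
    [Field k] [NumberField k] (m : ℤ) (δ : ℂ) : ℂ :=
  (2 * Real.pi * Complex.I) ^ (m * (D.n * Module.finrank ℚ k : ℕ)) *
    (D.period ι m ^ (nrRealPlaces k + nrComplexPlaces k) *
      D.period ι (m + 1) ^ nrComplexPlaces k * δ ^ D.n)

section per

variable {E : Type} [Field E] (D : MotiveData E) (ι : E →+* ℂ)

lemma period_ne' (m : ℤ) : D.period ι m ≠ 0 := by
  rw [MotiveData.period]
  split_ifs
  · exact D.Iplus_det ι
  · exact D.Iminus_det ι

lemma per_ne (k : Type) [Field k] [NumberField k] (m : ℤ) {δ : ℂ} (hδ : δ ≠ 0) :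
    delignePeriod D ι k m δ ≠ 0 :=
  mul_ne_zero (zpow_ne_zero _ Complex.two_pi_I_ne_zero)
    (mul_ne_zero (mul_ne_zero (pow_ne_zero _ (period_ne' D ι m))
      (pow_ne_zero _ (period_ne' D ι (m + 1)))) (pow_ne_zero _ hδ))

lemma per_sign (k : Type) [Field k] [NumberField k] (m : ℤ) {δ δ' : ℂ} (h : δ ^ 2 = δ' ^ 2) :
    ∃ s : ℚ, s ≠ 0 ∧ ∀ ι : E →+* ℂ, delignePeriod D ι k m δ = s * delignePeriod D ι k m δ' := by
  rcases sq_eq_sq_iff_eq_or_eq_neg.mp h with rfl | rfl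
  · exact ⟨1, one_ne_zero, fun ι => by simp⟩
  · refine ⟨(-1) ^ D.n, pow_ne_zero _ (by norm_num), fun ι => ?_⟩
    rw [delignePeriod, delignePeriod]
    push_cast
    rw [neg_pow δ']
    ring

lemma per_iso {k k' : Type} [Field k] [NumberField k] [Field k'] [NumberField k'] (e : k ≃+* k')
    (m : ℤ) (δ : ℂ) : delignePeriod D ι k m δ = delignePeriod D ι k' m δ := by
  rw [delignePeriod, delignePeriod, finrank_iso e, real_iso e, complex_iso e]

lemma disc_ne (k : Type) [Field k] [NumberField k] {δ : ℂ} (h : δ ^ 2 = (discr k : ℂ)) :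
    δ ≠ 0 := by
  rintro rfl
  rw [zero_pow two_ne_zero] at h
  exact discr_ne_zero k (by exact_mod_cast h.symm)

end per

variable {K : Type} [Field K] [NumberField K] [IsGalois ℚ K]

/-- **the relation between the periods** -/
theorem per_rel (φ : K →ₐ[ℚ] ℂ) [Fintype (Subgroup (K ≃ₐ[ℚ] K))]
    {V : Subgroup (K ≃ₐ[ℚ] K)} {c : Subgroup (K ≃ₐ[ℚ] K) → ℤ}
    (hc : ∀ g : K ≃ₐ[ℚ] K, ∑ U, (c U : ℂ) * ind U (fun _ => (1 : ℂ)) g
      = ind V (fun _ => (1 : ℂ)) g) {δ : Subgroup (K ≃ₐ[ℚ] K) → ℂ}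
    (hδ : ∀ U, δ U ^ 2 = (discr (fixedField U) : ℂ)) {E : Type} [Field E] (D : MotiveData E)
    (m : ℤ) : ∃ q : ℚ, q ≠ 0 ∧ ∀ ι : E →+* ℂ,
      ∏ U, delignePeriod D ι (fixedField U) m (δ U) ^ c U
        = q * delignePeriod D ι (fixedField V) m (δ V) := by
  classical
  have h4 : ∀ g : K ≃ₐ[ℚ] K, ∑ U, (c U : ℂ) * fx U g = fx V g := by
    intro g
    have := hc g
    rw [ind_one] at this
    rw [← this]
    exact Finset.sum_congr rfl fun U _ => by rw [ind_one]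
  have hc3 : ∀ g : K ≃ₐ[ℚ] K, ∑ U, c U * (fx U g : ℤ) = fx V g := fun g => by
    exact_mod_cast h4 g
  have hc4 : ∀ g : K ≃ₐ[ℚ] K, ∏ U, sg U g ^ c U = sg V g := prod_sg c V h4
  obtain ⟨q, δ', hq0, hδ', hprod⟩ := disc_rel (match_fixed φ V) hc4 (fun U _ => hδ U)
  obtain ⟨s, hs, hs'⟩ := per_sign D (fixedField V) m (hδ'.trans (hδ V).symm)
  have hdeg : ∑ U, c U * (Module.finrank ℚ (fixedField U) : ℤ)
      = Module.finrank ℚ (fixedField V) := by
    rw [← fx_one, ← hc3 1]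
    exact Finset.sum_congr rfl fun U _ => by rw [fx_one]
  obtain ⟨g, hg⟩ := exists_cc φ
  have hreal : ∑ U, c U * (nrRealPlaces (fixedField U) : ℤ) = nrRealPlaces (fixedField V) := by
    rw [← fx_real φ V g hg, ← hc3 g]
    exact Finset.sum_congr rfl fun U _ => by rw [fx_real φ U g hg]
  have hcomp : ∑ U, c U * (nrComplexPlaces (fixedField U) : ℤ)
      = nrComplexPlaces (fixedField V) := by
    have h1 : ∀ U : Subgroup (K ≃ₐ[ℚ] K), c U * (Module.finrank ℚ (fixedField U) : ℤ)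
        = c U * (nrRealPlaces (fixedField U) : ℤ)
          + 2 * (c U * (nrComplexPlaces (fixedField U) : ℤ)) := by
      intro U
      rw [← card_add_two_mul_card_eq_rank (fixedField U)]
      push_cast
      ring
    have h2 := hdeg
    rw [Finset.sum_congr rfl (fun U _ => h1 U), Finset.sum_add_distrib, hreal, ← Finset.mul_sum,
      ← card_add_two_mul_card_eq_rank (fixedField V)] at h2
    push_cast at h2
    omega
  have hrc : ∑ U, c U * ((nrRealPlaces (fixedField U) + nrComplexPlaces (fixedField U) : ℕ) : ℤ)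
      = ((nrRealPlaces (fixedField V) + nrComplexPlaces (fixedField V) : ℕ) : ℤ) := by
    push_cast
    simp only [mul_add]
    rw [Finset.sum_add_distrib, hreal, hcomp]
  refine ⟨q ^ D.n * s, mul_ne_zero (pow_ne_zero _ hq0) hs, fun ι => ?_⟩
  push_cast
  rw [mul_assoc, ← hs' ι]
  have h3 : (2 * Real.pi * Complex.I : ℂ) ≠ 0 := Complex.two_pi_I_ne_zero
  simp only [delignePeriod]
  generalize (2 * Real.pi * Complex.I : ℂ) = T at h3 ⊢
  simp only [mul_zpow]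
  rw [Finset.prod_mul_distrib, Finset.prod_mul_distrib, Finset.prod_mul_distrib,
    prod_zpow_nat _ (period_ne' D ι m) _ _ hrc, prod_zpow_nat _ (period_ne' D ι (m + 1)) _ _ hcomp]
  have h5 : ∏ U, (T ^ (m * (D.n * Module.finrank ℚ (fixedField U) : ℕ))) ^ c U
      = T ^ (m * (D.n * Module.finrank ℚ (fixedField V) : ℕ)) := by
    simp only [← zpow_mul]
    rw [prod_zpow _ h3]
    congr 1
    push_cast
    rw [← hdeg, Finset.mul_sum, Finset.mul_sum]
    exact Finset.sum_congr rfl fun U _ => by ring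
  have h6 : ∏ U, (δ U ^ D.n) ^ c U = ((q : ℂ) * δ') ^ D.n := by
    rw [← hprod, ← Finset.prod_pow]
    refine Finset.prod_congr rfl fun U _ => ?_
    rw [← zpow_natCast, ← zpow_natCast, ← zpow_mul, ← zpow_mul, mul_comm]
  rw [h5, h6, mul_pow]
  ring

lemma free_complex (φ : K →ₐ[ℚ] ℂ) {c : K ≃ₐ[ℚ] K} (hc : ∀ x, φ (c x) = star (φ x))
    {V : Subgroup (K ≃ₐ[ℚ] K)} (hV : Free c V) : IsTotallyComplex (fixedField V) := by
  rw [← nrRealPlaces_eq_zero_iff, ← fx_real φ V c hc, fx]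
  rw [Nat.card_eq_zero]
  left
  refine ⟨fun x => ?_⟩
  obtain ⟨x, hx⟩ := x
  obtain ⟨y, rfl⟩ := QuotientGroup.mk_surjective x
  exact hV y ((smul_coset_iff V c y).mp hx)

/-- **the relation between the L-values, for subfields of a Galois number field** -/
theorem main_fixed (φ : K →ₐ[ℚ] ℂ) {c₀ : K ≃ₐ[ℚ] K} (hc₀ : ∀ x, φ (c₀ x) = star (φ x))
    [Fintype (Subgroup (K ≃ₐ[ℚ] K))] {H₀ H₁ : Subgroup (K ≃ₐ[ℚ] K)} {j a₀ a₁ : ℕ}
    {a : Subgroup (K ≃ₐ[ℚ] K) → ℤ} (ha : ∀ V, a V ≠ 0 → Hyper V ∧ Free c₀ V)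
    (hrel : ∀ g : K ≃ₐ[ℚ] K, ∑ V, (a V : ℂ) * ind V (fun _ => (1 : ℂ)) g
        = 2 ^ j * ((a₀ : ℂ) * ind H₀ (fun _ => (1 : ℂ)) g
          - (a₁ : ℂ) * ind H₁ (fun _ => (1 : ℂ)) g))
    {E : Type} [Field E] [CharZero E] (D : MotiveData E) (m : ℤ)
    (hD : ∀ U : Subgroup (K ≃ₐ[ℚ] K), Hyperelementary U → IsTotallyComplex (fixedField U) →
      ∃ e : E, e ≠ 0 ∧ DeligneWith D (fixedField U) m e)
    {δ : Subgroup (K ≃ₐ[ℚ] K) → ℂ} (hδ : ∀ U, δ U ^ 2 = (discr (fixedField U) : ℂ))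
    {z₀ z₁ : (E →+* ℂ) → ℂ} (hz₀ : ∀ ι, HasLValue D ι (fixedField H₀) m (z₀ ι))
    (hz₁ : ∀ ι, HasLValue D ι (fixedField H₁) m (z₁ ι)) :
    ∃ e : E, e ≠ 0 ∧ ∀ ι : E →+* ℂ,
      (z₀ ι / delignePeriod D ι (fixedField H₀) m (δ H₀)) ^ (2 ^ j * a₀)
        = ι e * (z₁ ι / delignePeriod D ι (fixedField H₁) m (δ H₁)) ^ (2 ^ j * a₁) := by
  classical
  set A : ℕ := 2 ^ j * a₀ with hA
  set B : ℕ := 2 ^ j * a₁ with hB
  -- the test fields
  have h1 : ∀ V : Subgroup (K ≃ₐ[ℚ] K), ∃ e : E, e ≠ 0 ∧ (a V ≠ 0 → ∀ ι : E →+* ℂ,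
      HasLValue D ι (fixedField V) m (ι e * delignePeriod D ι (fixedField V) m (δ V))) := by
    intro V
    by_cases hV : a V = 0
    · exact ⟨1, one_ne_zero, fun h => absurd hV h⟩
    · obtain ⟨e, he, δ', hδ', h2⟩ := hD V (ha V hV).1 (free_complex φ hc₀ (ha V hV).2)
      obtain ⟨s, hs, hs'⟩ := per_sign D (fixedField V) m (hδ'.trans (hδ V).symm)
      refine ⟨e * (s : E), mul_ne_zero he (by exact_mod_cast hs), fun _ ι => ?_⟩
      have h3 := h2 ι
      rw [map_mul, map_ratCast, mul_assoc, ← hs' ι]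
      exact h3
  choose e he hL using h1
  let c : Subgroup (K ≃ₐ[ℚ] K) → ℤ := fun U =>
    a U + (if U = H₀ then 1 - (A : ℤ) else 0) + (if U = H₁ then (B : ℤ) else 0)
  have hsum : ∀ F : Subgroup (K ≃ₐ[ℚ] K) → ℂ, ∑ U, (c U : ℂ) * F U
      = ∑ U, (a U : ℂ) * F U + (1 - A) * F H₀ + B * F H₁ := by
    intro F
    have h2 : ∀ U, (c U : ℂ) * F U = (a U : ℂ) * F U
        + (if U = H₀ then (1 - (A : ℂ)) * F U else 0) + (if U = H₁ then (B : ℂ) * F U else 0) := by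
      intro U
      simp only [c]
      split_ifs <;> push_cast <;> ring
    rw [Finset.sum_congr rfl (fun U _ => h2 U), Finset.sum_add_distrib, Finset.sum_add_distrib,
      Finset.sum_ite_eq' Finset.univ H₀, Finset.sum_ite_eq' Finset.univ H₁,
      if_pos (Finset.mem_univ _), if_pos (Finset.mem_univ _)]
  have hprod : ∀ X : Subgroup (K ≃ₐ[ℚ] K) → ℂ, (∀ U, X U ≠ 0) → ∏ U, X U ^ c U
      = (∏ U, X U ^ a U) * X H₀ ^ (1 - (A : ℤ)) * X H₁ ^ (B : ℤ) := by
    intro X hX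
    have h2 : ∀ U, X U ^ c U = X U ^ a U
        * (if U = H₀ then X U ^ (1 - (A : ℤ)) else 1) * (if U = H₁ then X U ^ (B : ℤ) else 1) := by
      intro U
      simp only [c]
      rw [zpow_add₀ (hX U), zpow_add₀ (hX U)]
      congr 1
      · congr 1
        split_ifs
        · rfl
        · rw [zpow_zero]
      · split_ifs
        · rfl
        · rw [zpow_zero]
    rw [Finset.prod_congr rfl (fun U _ => h2 U), Finset.prod_mul_distrib, Finset.prod_mul_distrib,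
      Finset.prod_ite_eq' Finset.univ H₀, Finset.prod_ite_eq' Finset.univ H₁,
      if_pos (Finset.mem_univ _), if_pos (Finset.mem_univ _)]
  have hc : ∀ g : K ≃ₐ[ℚ] K, ∑ U, (c U : ℂ) * ind U (fun _ => (1 : ℂ)) g
      = ind H₀ (fun _ => (1 : ℂ)) g := by
    intro g
    rw [hsum (fun U => ind U (fun _ => (1 : ℂ)) g), hrel g, hA, hB]
    push_cast
    ring
  obtain ⟨q, hq0, hq⟩ := per_rel φ hc hδ D m
  refine ⟨(∏ U, e U ^ a U) * (q : E), mul_ne_zero
    (Finset.prod_ne_zero_iff.mpr fun U _ => zpow_ne_zero _ (he U)) (by exact_mod_cast hq0),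
    fun ι => ?_⟩
  -- the values
  have hval : z₀ ι ^ A = z₁ ι ^ B *
      ∏ U, (ι (e U) * delignePeriod D ι (fixedField U) m (δ U)) ^ a U := by
    obtain ⟨f₀, hf₀, hf₀', hf₀''⟩ := hz₀ ι
    obtain ⟨f₁, hf₁, hf₁', hf₁''⟩ := hz₁ ι
    have h2 : ∀ U : Subgroup (K ≃ₐ[ℚ] K), ∃ f : ℂ → ℂ, a U ≠ 0 →
        (∀ s : ℂ, (m : ℝ) ≤ s.re → MeromorphicAt f s) ∧
        (∀ s : ℂ, 1 + (D.w : ℝ) / 2 < s.re →
          HasProd (fun v => eulerFactor D ι (fixedField U) v s) (f s)) ∧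
        Tendsto f (𝓝[≠] (m : ℂ))
          (𝓝 (ι (e U) * delignePeriod D ι (fixedField U) m (δ U))) := by
      intro U
      by_cases hU : a U = 0
      · exact ⟨0, fun h0 => absurd hU h0⟩
      · obtain ⟨f, hf⟩ := hL U hU ι
        exact ⟨f, fun _ => hf⟩
    choose f hf using h2
    have hev : (fun s => f₀ s ^ A) =ᶠ[𝓝[≠] (m : ℂ)] fun s => f₁ s ^ B * ∏ U, f U s ^ a U := by
      refine ident (a := (m : ℝ)) (b := 1 + (D.w : ℝ) / 2) (fun s hs => (hf₀ s hs).fun_pow A)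
        (fun s hs => ?_) (fun s hs => ?_) (by simp)
      · refine ((hf₁ s hs).fun_pow B).fun_mul (MeromorphicAt.fun_prod fun U _ => ?_)
        by_cases hU : a U = 0
        · simp only [hU, zpow_zero]
          exact MeromorphicAt.const 1 s
        · exact ((hf U hU).1 s hs).fun_zpow _
      · have h3 := lg_rel D (match_fixed φ H₀) hc ι hs
        rw [hsum (fun U => lg D ι (fixedField U) s)] at h3
        have h4 : (A : ℂ) * lg D ι (fixedField H₀) s = (B : ℂ) * lg D ι (fixedField H₁) s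
            + ∑ U, (a U : ℂ) * lg D ι (fixedField U) s := by
          linear_combination -h3
        rw [(hf₀' s hs).unique (hasProd_euler D ι hs), (hf₁' s hs).unique (hasProd_euler D ι hs),
          ← Complex.exp_nat_mul, ← Complex.exp_nat_mul, h4, Complex.exp_add, Complex.exp_sum]
        congr 1
        refine Finset.prod_congr rfl fun U _ => ?_
        by_cases hU : a U = 0
        · rw [hU]
          simp
        · rw [((hf U hU).2.1 s hs).unique (hasProd_euler D ι hs), ← Complex.exp_int_mul]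
    have h3 : Tendsto (fun s => f₀ s ^ A) (𝓝[≠] (m : ℂ)) (𝓝 (z₀ ι ^ A)) := hf₀''.pow A
    have h4 : Tendsto (fun s => f₁ s ^ B * ∏ U, f U s ^ a U) (𝓝[≠] (m : ℂ))
        (𝓝 (z₁ ι ^ B * ∏ U, (ι (e U) * delignePeriod D ι (fixedField U) m (δ U)) ^ a U)) := by
      refine (hf₁''.pow B).mul (tendsto_finsetProd _ fun U _ => ?_)
      by_cases hU : a U = 0
      · simp only [hU, zpow_zero]
        exact tendsto_const_nhds
      · refine ((hf U hU).2.2).zpow₀ _ (Or.inl (mul_ne_zero ?_ (per_ne D ι _ m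
          (disc_ne _ (hδ U)))))
        rw [map_ne_zero]
        exact he U
    exact tendsto_nhds_unique_of_eventuallyEq h3 h4 hev
  have hP : ∀ U, delignePeriod D ι (fixedField U) m (δ U) ≠ 0 := fun U =>
    per_ne D ι _ m (disc_ne _ (hδ U))
  have h5 := hq ι
  rw [hprod _ hP] at h5
  have h6 : ∏ U, (ι (e U) * delignePeriod D ι (fixedField U) m (δ U)) ^ a U
      = ι (∏ U, e U ^ a U) * ∏ U, delignePeriod D ι (fixedField U) m (δ U) ^ a U := by
    rw [map_prod, ← Finset.prod_mul_distrib]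
    refine Finset.prod_congr rfl fun U _ => ?_
    rw [mul_zpow, map_zpow₀]
  rw [h6] at hval
  rw [div_pow, div_pow, hval, map_mul, map_ratCast]
  have h7 : ∏ U, delignePeriod D ι (fixedField U) m (δ U) ^ a U
      = q * delignePeriod D ι (fixedField H₀) m (δ H₀) ^ A
        / delignePeriod D ι (fixedField H₁) m (δ H₁) ^ B := by
    have h8 : delignePeriod D ι (fixedField H₀) m (δ H₀) ^ (1 - (A : ℤ))
        = delignePeriod D ι (fixedField H₀) m (δ H₀)
          / delignePeriod D ι (fixedField H₀) m (δ H₀) ^ A := by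
      rw [zpow_sub₀ (hP H₀), zpow_one, zpow_natCast]
    rw [h8, zpow_natCast] at h5
    have h9 := hP H₀
    have h10 := hP H₁
    field_simp at h5
    rw [eq_div_iff (pow_ne_zero _ h10)]
    linear_combination h5
  rw [h7]
  have h9 := hP H₀
  have h10 := hP H₁
  field_simp

lemma range_equiv {F : Type} [Field F] [NumberField F] (i : F →+* K) :
    ∃ R : IntermediateField ℚ K, (∀ y ∈ R, ∃ x, i x = y) ∧ Nonempty (F ≃+* R) := by
  let i' : F →ₐ[ℚ] K := RingHom.toRatAlgHom i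
  refine ⟨i'.fieldRange, fun y hy => ?_, ⟨RingEquiv.ofBijective
    (i.codRestrict i'.fieldRange (fun x => ⟨x, rfl⟩)) ⟨?_, ?_⟩⟩⟩
  · obtain ⟨x, hx⟩ := hy
    exact ⟨x, hx⟩
  · intro x y h
    exact i.injective (congrArg Subtype.val h)
  · rintro ⟨y, x, hx⟩
    exact ⟨x, Subtype.ext hx⟩

lemma fix_all {G : Type} [Group G] [Finite G] {H : Subgroup G} {c : G} (h : fx H c = fx H 1)
    (x : G) : x⁻¹ * c * x ∈ H := by
  classical
  have : Fintype (G ⧸ H) := Fintype.ofFinite _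
  rw [← smul_coset_iff]
  by_contra hcon
  have h1 : fx H 1 = Fintype.card (G ⧸ H) := by
    rw [fx, ← Nat.card_eq_fintype_card]
    simp only [one_smul]
    exact Nat.card_congr (Equiv.subtypeUnivEquiv fun _ => trivial)
  rw [h1, fx, Nat.card_eq_fintype_card] at h
  exact absurd h (Fintype.card_subtype_lt (p := fun q : G ⧸ H => c • q = q) hcon).ne

/-- **the relation, exact for totally real fields** -/
lemma exists_rel {G : Type} [Group G] [Finite G] [Fintype (Subgroup G)] {N Gp H₀ H₁ : Subgroup G}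
    {c : G} {a₀ a₁ : ℕ} [N.Normal] (h0 : N ≤ H₀) (h1 : N ≤ H₁)
    (hfix : a₀ * fx H₀ c = a₁ * fx H₁ c) (hc : c * c = 1) (hcN : c ∉ N) (hGp : Gp.index = 2)
    (hcG : c ∉ Gp) (hcent : ∀ g : G, g * c = c * g → g ∈ N ∨ c * g ∈ N) :
    ∃ (j : ℕ) (a : Subgroup G → ℤ), (fx H₀ c = fx H₀ 1 → fx H₁ c = fx H₁ 1 → j = 0) ∧
      (∀ V, a V ≠ 0 → Hyper V ∧ Free c V) ∧
      ∀ g : G, ∑ V, (a V : ℂ) * ind V (fun _ => (1 : ℂ)) g
        = 2 ^ j * ((a₀ : ℂ) * ind H₀ (fun _ => (1 : ℂ)) g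
          - (a₁ : ℂ) * ind H₁ (fun _ => (1 : ℂ)) g) := by
  classical
  by_cases h : fx H₀ c = fx H₀ 1 ∧ fx H₁ c = fx H₁ 1
  · obtain ⟨e0, e1⟩ := h
    let M : Subgroup G := (H₀ ⊓ H₁).normalCore
    have hM : M.Normal := Subgroup.normalCore_normal _
    have hMle : M ≤ H₀ ⊓ H₁ := Subgroup.normalCore_le _
    have hNM : N ≤ M := Subgroup.normal_le_normalCore.mpr (le_inf h0 h1)
    have hcM : c ∈ M := by
      intro b
      have h2 := fix_all e0 b⁻¹
      have h3 := fix_all e1 b⁻¹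
      rw [inv_inv] at h2 h3
      exact Subgroup.mem_inf.mpr ⟨h2, h3⟩
    have hcent' : ∀ g : G, g * c = c * g → g ∈ M := by
      intro g hg
      rcases hcent g hg with h2 | h2
      · exact hNM h2
      · have h3 := mul_mem (inv_mem hcM) (hNM h2)
        rwa [inv_mul_cancel_left] at h3
    rw [e0, e1] at hfix
    obtain ⟨a, ha, ha'⟩ := PG_coeff (one_mult (hMle.trans inf_le_left) (hMle.trans inf_le_right)
      hcM hGp hcG hc hcent' hfix)
    refine ⟨0, a, fun _ _ => rfl, ha, fun g => ?_⟩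
    have h2 := ha' g
    rw [finsum_eq_sum_of_fintype] at h2
    rw [h2, psi, ind_one, ind_one, pow_zero, one_mul]
  · obtain ⟨j, a, ha, ha'⟩ := relation h0 h1 hfix hc hcN hcent
    exact ⟨j, a, fun e0 e1 => absurd ⟨e0, e1⟩ h, ha, ha'⟩

/-- **the main theorem** -/
theorem main (F₀ F₁ : Type) [Field F₀] [NumberField F₀] [Field F₁] [NumberField F₁]
    (a₀ a₁ : ℕ) (hr : a₀ * nrRealPlaces F₀ = a₁ * nrRealPlaces F₁) :
    ∃ (K : Type) (_ : Field K) (_ : NumberField K) (_ : IsGalois ℚ K) (j : ℕ),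
      Nonempty (F₀ →+* K) ∧ Nonempty (F₁ →+* K) ∧
      (IsTotallyReal F₀ → IsTotallyReal F₁ → j = 0) ∧
      ∀ {E : Type} [Field E] [NumberField E] (D : MotiveData E) (m : ℤ),
        (∀ U : Subgroup (K ≃ₐ[ℚ] K), Hyperelementary U → IsTotallyComplex (fixedField U) →
          ∃ e : E, e ≠ 0 ∧ DeligneWith D (fixedField U) m e) →
        ∀ δ₀ δ₁ : ℂ, δ₀ ^ 2 = (discr F₀ : ℂ) → δ₁ ^ 2 = (discr F₁ : ℂ) →
        ∀ z₀ z₁ : (E →+* ℂ) → ℂ, (∀ ι, HasLValue D ι F₀ m (z₀ ι)) →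
          (∀ ι, HasLValue D ι F₁ m (z₁ ι)) →
        ∃ e : E, e ≠ 0 ∧ ∀ ι : E →+* ℂ,
          (z₀ ι / delignePeriod D ι F₀ m δ₀) ^ (2 ^ j * a₀)
            = ι e * (z₁ ι / delignePeriod D ι F₁ m δ₁) ^ (2 ^ j * a₁) := by
  classical
  obtain ⟨K, _, _, _, i₀, i₁, φ, c, N, Gp, hN, hc, hcc, hcN, hGp, hcG, hcent, hN₀, hN₁⟩ :=
    exists_field F₀ F₁
  have : Fintype (Subgroup (K ≃ₐ[ℚ] K)) := Fintype.ofFinite _
  obtain ⟨R₀, hR₀, ⟨e₀⟩⟩ := range_equiv i₀
  obtain ⟨R₁, hR₁, ⟨e₁⟩⟩ := range_equiv i₁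
  have h0 : N ≤ R₀.fixingSubgroup := by
    intro n hn
    rw [IntermediateField.mem_fixingSubgroup_iff]
    intro y hy
    obtain ⟨x, rfl⟩ := hR₀ y hy
    exact hN₀ n hn x
  have h1 : N ≤ R₁.fixingSubgroup := by
    intro n hn
    rw [IntermediateField.mem_fixingSubgroup_iff]
    intro y hy
    obtain ⟨x, rfl⟩ := hR₁ y hy
    exact hN₁ n hn x
  let g₀ : F₀ ≃+* fixedField R₀.fixingSubgroup := e₀.trans
    (IntermediateField.equivOfEq (IsGalois.fixedField_fixingSubgroup R₀).symm).toRingEquiv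
  let g₁ : F₁ ≃+* fixedField R₁.fixingSubgroup := e₁.trans
    (IntermediateField.equivOfEq (IsGalois.fixedField_fixingSubgroup R₁).symm).toRingEquiv
  have hfix : a₀ * fx R₀.fixingSubgroup c = a₁ * fx R₁.fixingSubgroup c := by
    rw [fx_real φ _ c hc, fx_real φ _ c hc, ← real_iso g₀, ← real_iso g₁, hr]
  obtain ⟨j, a, hj, ha, hrel⟩ := exists_rel h0 h1 hfix hcc hcN hGp hcG hcent
  have hreal : ∀ {F : Type} [Field F] [NumberField F] {R : IntermediateField ℚ K},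
      F ≃+* fixedField R.fixingSubgroup → IsTotallyReal F →
      fx R.fixingSubgroup c = fx R.fixingSubgroup 1 := by
    intro F _ _ R g h
    rw [fx_real φ _ c hc, fx_one, ← real_iso g, ← finrank_iso g]
    exact (IsTotallyReal.finrank F).symm
  refine ⟨K, inferInstance, inferInstance, inferInstance, j, ⟨i₀⟩, ⟨i₁⟩,
    fun r0 r1 => hj (hreal g₀ r0) (hreal g₁ r1), ?_⟩
  intro E _ _ D m hD δ₀ δ₁ hδ₀ hδ₁ z₀ z₁ hz₀ hz₁
  have hsq : ∀ U : Subgroup (K ≃ₐ[ℚ] K), ∃ δ : ℂ, δ ^ 2 = (discr (fixedField U) : ℂ) := fun U =>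
    IsAlgClosed.exists_pow_nat_eq _ two_pos
  choose δ hδ using hsq
  obtain ⟨e, he, hmain⟩ := main_fixed φ hc ha hrel D m hD hδ
    (fun ι => hasLValue_iso D ι g₀ (hz₀ ι)) (fun ι => hasLValue_iso D ι g₁ (hz₁ ι))
  have hd₀ : δ₀ ^ 2 = δ R₀.fixingSubgroup ^ 2 := by
    rw [hδ₀, hδ, discr_eq_discr_of_ringEquiv F₀ g₀]
  have hd₁ : δ₁ ^ 2 = δ R₁.fixingSubgroup ^ 2 := by
    rw [hδ₁, hδ, discr_eq_discr_of_ringEquiv F₁ g₁]
  obtain ⟨s₀, hs₀, hs₀'⟩ := per_sign D F₀ m hd₀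
  obtain ⟨s₁, hs₁, hs₁'⟩ := per_sign D F₁ m hd₁
  refine ⟨e * ((s₁ : E) ^ (2 ^ j * a₁) / (s₀ : E) ^ (2 ^ j * a₀)),
    mul_ne_zero he (div_ne_zero (pow_ne_zero _ (by exact_mod_cast hs₁))
      (pow_ne_zero _ (by exact_mod_cast hs₀))), fun ι => ?_⟩
  have h2 := hmain ι
  rw [← per_iso D ι g₀, ← per_iso D ι g₁] at h2
  rw [hs₀' ι, hs₁' ι, map_mul, map_div₀, map_pow, map_pow, map_ratCast, map_ratCast]
  have h3 : (s₀ : ℂ) ≠ 0 := by exact_mod_cast hs₀
  have h4 : (s₁ : ℂ) ≠ 0 := by exact_mod_cast hs₁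
  have h5 : z₀ ι / (s₀ * delignePeriod D ι F₀ m (δ R₀.fixingSubgroup))
      = (s₀ : ℂ)⁻¹ * (z₀ ι / delignePeriod D ι F₀ m (δ R₀.fixingSubgroup)) := by
    rw [div_mul_eq_div_div_swap, div_eq_mul_inv _ (s₀ : ℂ), mul_comm]
  have h6 : z₁ ι / (s₁ * delignePeriod D ι F₁ m (δ R₁.fixingSubgroup))
      = (s₁ : ℂ)⁻¹ * (z₁ ι / delignePeriod D ι F₁ m (δ R₁.fixingSubgroup)) := by
    rw [div_mul_eq_div_div_swap, div_eq_mul_inv _ (s₁ : ℂ), mul_comm]
  rw [h5, h6, mul_pow, mul_pow, h2, inv_pow, inv_pow]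
  have h7 := pow_ne_zero (2 ^ j * a₁) h4
  have h8 := pow_ne_zero (2 ^ j * a₀) h3
  field_simp

end Pool.Agent.K9h40.DT
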